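import Pool.Agent.J4.H93.WK.WK2
import Pool.Agent.N145.PL.A1Psef
import Pool.Agent.N133.PC2
import Pool.Agent.W602.GT.KPsefS

/-!
Logarithmic Kodaira dimension `-∞` and affine lines for wide systems.
-/

set_option autoImplicit false

open FF Module IntermediateField Pool.Agent.W603.LV Pool.Agent.W602.GT Pool.Agent.R869.Wd

namespace Pool.Agent.J4.H93.WK

section a1

variable {k : Type} [Field k] {K : Type} [Field K] [Algebra k K]

theorem alg_map' {A B K : Type} [Field A] [Field B] [Field K] [Algebra A K] [Algebra B K]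
    (j : A →+* B) (hj : ∀ a, algebraMap B K (j a) = algebraMap A K a) {z : K}
    (hz : IsAlgebraic A z) : IsAlgebraic B z := by
  obtain ⟨P, hP0, hP⟩ := hz
  refine ⟨P.map j, (Polynomial.map_ne_zero_iff j.injective).2 hP0, ?_⟩
  rw [Polynomial.aeval_def, Polynomial.eval₂_map]
  have h1 : (algebraMap B K).comp j = algebraMap A K := RingHom.ext hj
  rw [h1]
  exact hP

/-- affine lines from vector fields (adapted from `Pool.Agent.TH766.MC.a1_of_delta`) -/
theorem a1_of_delta' [CharZero k] [IsAlgClosed k] {n : ℕ} (htr : Algebra.trdeg k K = n)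
    {Bd : Place k K → Prop} (δ : Derivation k K K) {σ : K} (hσ0 : σ ≠ 0) (hσ : δ σ = σ)
    (E : IntermediateField k K) (hfg : E.FG) (hE : E ≤ consts δ) (htop : E⟮σ⟯ = ⊤)
    (hBd : ∀ P : Place k K, (∀ c : K, δ c = 0 → c ≠ 0 → P.ord c = 0) → 0 ≤ P.ord σ → ¬ Bd P) :
    Pool.Agent.W619.PL.IsA1Uniruled k K n Bd := by
  classical
  have hcontr : ¬ IsAlgebraic (consts δ) σ := by
    intro h
    have h1 := der_of_alg δ h
    rw [hσ] at h1
    exact hσ0 h1
  have hσt : Transcendental E σ := fun h =>
    hcontr (alg_map' (inclusion hE).toRingHom (fun _ => rfl) h)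
  have hfin : FiniteDimensional E⟮σ⟯ K := by
    have h1 : Module.Finite E⟮σ⟯ K := by
      refine ⟨⟨{1}, ?_⟩⟩
      rw [eq_top_iff]
      intro z _
      have hz : z ∈ E⟮σ⟯ := by rw [htop]; exact mem_top
      rw [Finset.coe_singleton, Submodule.mem_span_singleton]
      exact ⟨⟨z, hz⟩, by rw [Algebra.smul_def, mul_one]; rfl⟩
    exact h1
  have hFF : IsFF E K := IsFF.of_finite hσt hfin
  have htr2 : Algebra.trdeg k E + 1 = n := by
    have h1 := _root_.trdeg_add_eq k E (A := K)
    rw [hFF.trdeg, htr] at h1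
    exact h1
  have hess : Algebra.EssFiniteType k E := (IntermediateField.essFiniteType_iff).2 hfg
  let e1 : RatFunc E ≃ₐ[E] E⟮σ⟯ := RatFunc.algEquivOfTranscendental σ hσt
  let e2 : E⟮σ⟯ ≃ₐ[E] K := (equivOfEq htop).trans topEquiv
  let e3 : RatFunc E ≃ₐ[E] K := e1.trans e2
  have he3 : e3 RatFunc.X = σ := by
    change e2 (e1 RatFunc.X) = σ
    have : e1 RatFunc.X = AdjoinSimple.gen E σ := by
      rw [← RatFunc.algebraMap_X]
      change RatFunc.algEquivOfTranscendental σ hσt
        (algebraMap (Polynomial E) (RatFunc E) Polynomial.X) = _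
      rw [RatFunc.algEquivOfTranscendental_algebraMap]
      apply Subtype.ext
      simp
    rw [this]
    rfl
  refine ⟨E, inferInstance, inferInstance,
    ((e3.symm.restrictScalars k : K ≃ₐ[k] RatFunc E) : K →ₐ[k] RatFunc E), hess, htr2, ?_⟩
  intro w hw v e he hwv
  have hwv' : ∀ f : K, w.ord (e3.symm f) = e * v.ord f := hwv
  refine hBd v (fun c hc hc0 => ?_) ?_
  · by_contra hne
    have h1 : w.ord (e3.symm c) ≠ 0 := by
      rw [hwv']
      have : (e : ℤ) ≠ 0 := by exact_mod_cast he.ne'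
      exact mul_ne_zero this hne
    have h2 : Transcendental E (e3.symm c) := w.transcendental_of_ord_ne h1
    have h3 : Transcendental E c := by
      intro h
      exact h2 (h.algHom (e3.symm : K →ₐ[E] RatFunc E))
    have h4 := (IsFF.isAlgebraic h3).isAlgebraic σ
    apply hcontr
    have hle : ∀ a ∈ E⟮c⟯, a ∈ consts δ := by
      have h5 : E⟮c⟯ ≤ IntermediateField.extendScalars hE := by
        rw [IntermediateField.adjoin_le_iff]
        rintro _ rfl
        exact hc
      exact fun a ha => h5 ha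
    exact alg_map' ((algebraMap E⟮c⟯ K).codRestrict (consts δ) (fun a => hle _ a.2))
      (fun _ => rfl) h4
  · have h1 := hwv' σ
    have h2 : e3.symm σ = RatFunc.X := by rw [← he3, AlgEquiv.symm_apply_apply]
    rw [h2] at h1
    have h3 : 0 ≤ w.ord RatFunc.X := by
      rcases hw with h | h
      · exact absurd h RatFunc.X_ne_zero
      · exact h
    rw [h1] at h3
    have : (0 : ℤ) < e := by exact_mod_cast he
    by_contra hcon
    push Not at hcon
    have := mul_neg_of_pos_of_neg this hcon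
    omega

end a1

variable {k : Type} [Field k] {n : ℕ} {ι : Type}

/-- contractions give affine lines -/
theorem a1_of_contracts [CharZero k] [IsAlgClosed k] {U : Set (Fin (n + 1))} {K : Type} [Field K]
    [Algebra k K] {w : ℕ} {y : Fin (n + 1) → K} (hyU : ∀ j ∈ U, y j ≠ 0) (hgen : coords k y = ⊤)
    (htr : Algebra.trdeg k K = w) {b : Fin (n + 1) → ℕ} (h : Contracts U k y b) :
    Pool.Agent.W619.PL.IsA1Uniruled k K w (OffU U y) := by
  classical
  obtain ⟨i, hi, hbi⟩ := h.fixed
  obtain ⟨i', hi', hbi'⟩ := h.moved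
  obtain ⟨δ, σ, g, b', hσ0, hσ, -, hg, hb', hz⟩ := exists_delta hgen (fun j => (b j : ℤ)) hi hi'
    (by
      simp only [hbi]
      intro h0
      exact hbi' (by exact_mod_cast h0.symm))
    (fun G hG h0 v => hom_of_contracts hyU h G hG h0 v)
  have hb0 : ∀ j, y j ≠ 0 → 0 ≤ b' j := by
    intro j hj
    have h1 := hb' j hj
    simp only [hbi, Nat.cast_zero, sub_zero] at h1
    by_contra hcon
    push Not at hcon
    have h2 : g * b' j < 0 := mul_neg_of_pos_of_neg hg hcon
    have h3 : (0 : ℤ) ≤ b j := Int.natCast_nonneg _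
    omega
  have hbU : ∀ j ∈ U, b' j = 0 := by
    intro j hj
    have h1 := hb' j (hyU j hj)
    simp only [hbi, h.zero j hj, Nat.cast_zero, sub_zero] at h1
    exact (mul_eq_zero.1 h1.symm).resolve_left hg.ne'
  have hz' : ∀ j, ∃ z : K, δ z = 0 ∧ (y j ≠ 0 → y j / y i = z * σ ^ (b' j)) := by
    intro j
    by_cases hj : y j = 0
    · exact ⟨0, map_zero δ, fun h => absurd hj h⟩
    · obtain ⟨z, -, hz1, hz2⟩ := hz j hj
      exact ⟨z, hz1, fun _ => hz2⟩
  choose z hz1 hz2 using hz'
  let E : IntermediateField k K := IntermediateField.adjoin k (Set.range z)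
  have hE : E ≤ consts δ := by
    rw [IntermediateField.adjoin_le_iff]
    rintro _ ⟨j, rfl⟩
    exact hz1 j
  have hfg : E.FG := ⟨(Set.finite_range z).toFinset, by rw [Set.Finite.coe_toFinset]⟩
  have htop : E⟮σ⟯ = ⊤ := by
    rw [eq_top_iff]
    intro x _
    have hx : x ∈ coords k y := by
      rw [hgen]
      exact mem_top
    have hle : coords k y ≤ (E⟮σ⟯).restrictScalars k := by
      unfold coords
      rw [IntermediateField.adjoin_le_iff]
      rintro _ ⟨j, l, hl, rfl⟩
      have key : ∀ j, y j ≠ 0 → y j / y i ∈ (E⟮σ⟯).restrictScalars k := by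
        intro j hj
        rw [hz2 j hj]
        have h1 : z j ∈ (E⟮σ⟯).restrictScalars k := by
          have h2 : z j ∈ E := IntermediateField.subset_adjoin k _ ⟨j, rfl⟩
          have h3 : algebraMap E K ⟨z j, h2⟩ ∈ E⟮σ⟯ := IntermediateField.algebraMap_mem _ _
          exact h3
        have h4 : σ ∈ (E⟮σ⟯).restrictScalars k := IntermediateField.mem_adjoin_simple_self E σ
        exact mul_mem h1 (zpow_mem h4 _)
      by_cases hj : y j = 0
      · rw [hj, zero_div]
        exact zero_mem _
      · have h3 := div_mem (key j hj) (key l hl)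
        have h4 : y j / y i / (y l / y i) = y j / y l := by field_simp
        rwa [h4] at h3
    exact hle hx
  refine a1_of_delta' htr δ hσ0 hσ E hfg hE htop ?_
  rintro P hP hPσ ⟨j, hj, l, hl, hlt⟩
  rw [ord_ratio hσ0 hi hz hP hl, ord_ratio hσ0 hi hz hP (hyU j hj), hbU j hj, zero_mul,
    add_zero] at hlt
  have h1 := mul_nonneg (hb0 l hl) hPσ
  linarith

/-- **Logarithmic Kodaira dimension `-∞` and affine lines.** -/
theorem a1_wide [CharZero k] [IsAlgClosed k] {U : Set (Fin (n + 1))}
    {F : ι → MvPolynomial (Fin (n + 1)) k} {s N : ℕ} (hF : ∀ e, IsForm (F e))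
    (hcard : ∀ e, (F e).support.card ≤ s) (hW : WideK U F N)
    (hN : n * ((s + 1) * ((s - 1) * (s - 2) / 2)) ≤ N) {K : Type} [Field K] [Algebra k K] {w : ℕ}
    {y : Fin (n + 1) → K} (hy : SubVarU U F K w y) (hcomp : IsComponentU U F y) :
    [¬ KodGe k K w (OffU U y) 0, ¬ Psef k K w (OffU U y),
      Pool.Agent.W619.PL.IsA1Uniruled k K w (OffU U y), ∃ b, Contracts U k y b,
      ∃ b, Acts U k y b ∧ (∃ i i', y i ≠ 0 ∧ y i' ≠ 0 ∧ b i ≠ b i') ∧
        ∀ j ∈ U, ∀ l, y l ≠ 0 → b j ≤ b l].TFAE := by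
  classical
  have hess : Algebra.EssFiniteType k K := essFinite hy.gen
  have hinf : Infinite k := inferInstance
  tfae_have 1 → 4 := (kod_wide_final hF hcard hW hN hy hcomp).1.1
  tfae_have 4 → 3 := fun ⟨b, hb⟩ => a1_of_contracts hy.unit hy.gen hy.dim hb
  tfae_have 3 → 2 := fun h => Pool.Agent.N145.PL.not_psef_of_a1 hy.dim h
  tfae_have 2 → 1 := fun h h' => h (psef_of_kodGe h')
  tfae_have 4 → 5 := by
    rintro ⟨b, hb⟩
    obtain ⟨i, hi, hbi⟩ := hb.fixed
    obtain ⟨i', hi', hbi'⟩ := hb.moved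
    refine ⟨fun j => (b j : ℤ), acts_of_hom (hom_of_contracts hy.unit hb), ⟨i, i', hi, hi', ?_⟩,
      fun j hj l _ => ?_⟩
    · simp only [hbi]
      intro h0
      exact hbi' (by exact_mod_cast h0.symm)
    · simp only [hb.zero j hj]
      exact_mod_cast Nat.zero_le _
  tfae_have 5 → 4 := by
    rintro ⟨b, hb, ⟨i, i', hi, hi', hne⟩, hmin⟩
    have hH := fun G hG h0 v => Pool.Agent.N133.PC.hom_of_acts hy.unit hi hb G hG h0 v
    obtain ⟨j0, hj0, hmin0⟩ := Finset.exists_min_image (Finset.univ.filter fun j => y j ≠ 0)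
      (fun j => b j) ⟨i, by simpa using hi⟩
    have hj0' : y j0 ≠ 0 := (Finset.mem_filter.1 hj0).2
    have hmin' : ∀ j, y j ≠ 0 → b j0 ≤ b j := fun j hj =>
      hmin0 j (Finset.mem_filter.2 ⟨Finset.mem_univ _, hj⟩)
    let c : Fin (n + 1) → ℕ := fun j => if y j = 0 then 0 else (b j - b j0).toNat
    have hc : ∀ j, y j ≠ 0 → (c j : ℤ) = b j - b j0 := by
      intro j hj
      simp only [c, if_neg hj]
      exact Int.toNat_of_nonneg (sub_nonneg.2 (hmin' j hj))
    refine ⟨c, contracts_of_hom (fun j hj => ?_) ⟨j0, hj0', ?_⟩ ?_ ?_⟩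
    · have h1 := hmin j hj j0 hj0'
      have h2 := hc j (hy.unit j hj)
      omega
    · have h2 := hc j0 hj0'
      omega
    · by_contra hcon
      push Not at hcon
      apply hne
      have h1 := hc i hi
      have h2 := hc i' hi'
      rw [hcon i hi] at h1
      rw [hcon i' hi'] at h2
      push_cast at h1 h2
      omega
    · intro G hG h0 v
      obtain ⟨d, hd⟩ := hG
      -- the weights of the terms differ by a constant
      have h1 : ∀ x : Fin (n + 1) → k, x ∈ PtsU U k y → ∀ t : k, t ≠ 0 →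
          (fun j => t ^ (c j : ℤ) * x j) ∈ PtsU U k y := by
        intro x hx t ht
        have h2 := hb t ht x hx
        have h3 : (fun j => t ^ (c j : ℤ) * x j) = fun j => (t ^ (b j0))⁻¹ * (t ^ b j * x j) := by
          funext j
          by_cases hj : y j = 0
          · have h4 : x j = 0 := by
              have h5 := hx.1.2 (MvPolynomial.X j) ⟨1, MvPolynomial.isHomogeneous_X k j⟩ (by
                unfold Pool.Agent.W602.GT.val
                rw [MvPolynomial.aeval_X, hj])
              unfold Pool.Agent.W602.GT.val at h5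
              rwa [MvPolynomial.aeval_X] at h5
            rw [h4]
            simp
          · rw [hc j hj, zpow_sub₀ ht]
            field_simp
        rw [h3]
        refine ⟨⟨?_, fun G' hG' h0' => ?_⟩, fun j hj => ?_⟩
        · intro h4
          apply h2.1.1
          funext j
          have h5 := congrFun h4 j
          exact (mul_eq_zero.1 h5).resolve_left (inv_ne_zero (zpow_ne_zero _ ht))
        · obtain ⟨d', hd'⟩ := hG'
          rw [val_smul hd', h2.1.2 G' ⟨d', hd'⟩ h0', mul_zero]
        · exact mul_ne_zero (inv_ne_zero (zpow_ne_zero _ ht)) (h2.2 j hj)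
      exact Pool.Agent.N133.PC.hom_of_acts hy.unit hi (b := fun j => (c j : ℤ))
        (fun t ht x hx => h1 x hx t ht) G ⟨d, hd⟩ h0 v
  tfae_finish

end Pool.Agent.J4.H93.WK
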