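import Pool.Agent.J4.H18.IT.Gen
import Pool.Agent.J4.H93.WK.WK6
import Pool.Agent.J4.H93.WS.WS9
import Pool.Agent.J4.H93.WS.WS8

/-!
Iitaka's inequality for all fibrations of the components of varieties given by wide systems of forms.
-/

set_option autoImplicit false

open FF Module IntermediateField MvPolynomial Pool.Agent.W602.GT Pool.Agent.R869.Wd Pool.Agent.J4.H93.WS

namespace Pool.Agent.J4.H93.WK.RI

/-- The algebraic closure of the function field `B` of the base of a fibration, in an algebraic
closure of the function field `L` of the total space. -/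
abbrev Const {L : Type} [Field L] [Algebra ℂ L] (B : IntermediateField ℂ L) : Type :=
  algebraicClosure B (AlgebraicClosure L)

/-- The function field of the geometric generic fibre of the map from the variety with the function
field `L` to the variety with the function field `B`: the compositum of `L` and the algebraic closure
of `B`. -/
abbrev GeometricFibre {L : Type} [Field L] [Algebra ℂ L] (B : IntermediateField ℂ L) : Type :=
  IntermediateField.adjoin (algebraicClosure B (AlgebraicClosure L))
    (Set.range (algebraMap L (AlgebraicClosure L)))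

/-- The Kodaira dimension of the geometric generic fibre, of dimension `f`, of the dominant rational map to the variety with the
function field `Z` is at least `i`. -/
def FibreKodairaGe {L : Type} [Field L] [Algebra ℂ L] (Z : IntermediateField ℂ L) (f i : ℕ) : Prop :=
  KodGe (Const Z) (GeometricFibre Z) f (fun _ => False) i

/-- The Kodaira dimension of the variety of dimension `b` with the function field `Z` is at least `j`. -/
def BaseKodairaGe {L : Type} [Field L] [Algebra ℂ L] (Z : IntermediateField ℂ L) (b j : ℕ) : Prop :=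
  KodGe ℂ Z b (fun _ => False) j

/-- Iitaka's inequality for all fibrations of the variety `V` of dimension `w` with the function field `L`: let `V ⇢ Z` be any
dominant rational map, given by the subfield `Z` of `L`, let `G` be its geometric generic fibre, `dim Z = b`, `dim G = f`. If
`κ(G) ≥ i` and `κ(Z) ≥ j` for numbers `i, j ≥ 0` then `κ(V) ≥ i + j`, and `V` is of general type. -/
def IitakaInequality (L : Type) [Field L] [Algebra ℂ L] (w : ℕ) : Prop :=
  ∀ (Z : IntermediateField ℂ L) (b f : ℕ), Algebra.trdeg ℂ Z = b → Algebra.trdeg Z L = f →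
    ∀ i j : ℕ, FibreKodairaGe Z f i → BaseKodairaGe Z b j →
      KodGe ℂ L w (fun _ => False) (i + j) ∧ GeneralType ℂ L w

/-- Iitaka's inequality for all fibrations of all irreducible components `V`, of dimension `w ≥ 1`, of `X = {F = 0}`. `V` is given
by its function field `L` and its generic point `y`. `V` is uniruled or of general type, and `IitakaInequality` holds for `V`. -/
def IitakaComponents {n : ℕ} {ι : Type} (F : ι → MvPolynomial (Fin (n + 1)) ℂ) : Prop :=
  ∀ (L : Type) [Field L] [Algebra ℂ L] (w : ℕ) (y : Fin (n + 1) → L), 1 ≤ w → SubVar F L w y → IsComponent F y →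
    (¬ Pool.Agent.W619.PQ.IsUniruled ℂ L w → GeneralType ℂ L w) ∧ IitakaInequality L w

/-- one-parameter groups with weights that are minimal on `U` contract -/
theorem contracts_of_acts {k : Type} [Field k] [IsAlgClosed k] {n : ℕ} {U : Set (Fin (n + 1))} {K : Type} [Field K]
    [Algebra k K] {y : Fin (n + 1) → K} (hyU : ∀ j ∈ U, y j ≠ 0) {i i' : Fin (n + 1)} (hi : y i ≠ 0)
    (hi' : y i' ≠ 0) {b : Fin (n + 1) → ℤ} (hne : b i ≠ b i') (hb : Acts U k y b)
    (hmin : ∀ j ∈ U, ∀ l, y l ≠ 0 → b j ≤ b l) : ∃ c, Contracts U k y c := by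
  classical
  have hinf : Infinite k := inferInstance
  obtain ⟨j0, hj0, hmin0⟩ := Finset.exists_min_image (Finset.univ.filter fun j => y j ≠ 0)
    (fun j => b j) ⟨i, by simpa using hi⟩
  have hj0' : y j0 ≠ 0 := (Finset.mem_filter.1 hj0).2
  have hmin' : ∀ j, y j ≠ 0 → b j0 ≤ b j := fun j hj =>
    hmin0 j (Finset.mem_filter.2 ⟨Finset.mem_univ _, hj⟩)
  let c : Fin (n + 1) → ℕ := fun j => if y j = 0 then 0 else (b j - b j0).toNat
  have hc : ∀ j, y j ≠ 0 → (c j : ℤ) = b j - b j0 := by
    intro j hj
    simp only [c, if_neg hj]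
    exact Int.toNat_of_nonneg (sub_nonneg.2 (hmin' j hj))
  refine ⟨c, contracts_of_hom (fun j hj => ?_) ⟨j0, hj0', ?_⟩ ?_ ?_⟩
  · have h1 := hmin j hj j0 hj0'
    have h2 := hc j (hyU j hj)
    omega
  · have h2 := hc j0 hj0'
    omega
  · by_contra hcon
    push Not at hcon
    apply hne
    have h1 := hc i hi
    have h2 := hc i' hi'
    rw [hcon i hi] at h1
    rw [hcon i' hi'] at h2
    push_cast at h1 h2
    omega
  · intro G hG h0 v
    obtain ⟨d, hd⟩ := hG
    have h1 : ∀ x : Fin (n + 1) → k, x ∈ PtsU U k y → ∀ t : k, t ≠ 0 →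
        (fun j => t ^ (c j : ℤ) * x j) ∈ PtsU U k y := by
      intro x hx t ht
      have h2 := hb t ht x hx
      have h3 : (fun j => t ^ (c j : ℤ) * x j) = fun j => (t ^ (b j0))⁻¹ * (t ^ b j * x j) := by
        funext j
        by_cases hj : y j = 0
        · have h4 : x j = 0 := by
            have h5 := hx.1.2 (MvPolynomial.X j) ⟨1, MvPolynomial.isHomogeneous_X k j⟩ (by
              unfold Pool.Agent.W602.GT.val
              rw [MvPolynomial.aeval_X, hj])
            unfold Pool.Agent.W602.GT.val at h5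
            rwa [MvPolynomial.aeval_X] at h5
          rw [h4]
          simp
        · rw [hc j hj, zpow_sub₀ ht]
          field_simp
      rw [h3]
      refine ⟨⟨?_, fun G' hG' h0' => ?_⟩, fun j hj => ?_⟩
      · intro h4
        apply h2.1.1
        funext j
        have h5 := congrFun h4 j
        exact (mul_eq_zero.1 h5).resolve_left (inv_ne_zero (zpow_ne_zero _ ht))
      · obtain ⟨d', hd'⟩ := hG'
        rw [val_smul hd', h2.1.2 G' ⟨d', hd'⟩ h0', mul_zero]
      · exact mul_ne_zero (inv_ne_zero (zpow_ne_zero _ ht)) (h2.2 j hj)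
    exact Pool.Agent.N133.PC.hom_of_acts hyU hi (b := fun j => (c j : ℤ))
      (fun t ht x hx => h1 x hx t ht) G ⟨d, hd⟩ h0 v

theorem kodw_of_general {k K : Type} [Field k] [Field K] [Algebra k K] {w : ℕ} (h : GeneralType k K w) :
    KodGe k K w (fun _ => False) w := by
  obtain ⟨-, N, hN, ω, h1, h2, D, hD, hind⟩ := h
  refine ⟨N, hN, ω, fun j => ⟨h1 j, fun P hP D hDP => ?_, fun P hP _ => h2 P hP j⟩, D, hD, hind⟩
  refine h2 P hP j D fun i f hf => ?_
  by_cases h0 : f = 0
  · rw [h0, map_zero]
    exact P.reg_zero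
  · have h3 := P.reg_mul (hDP i f) hf
    rwa [div_mul_cancel₀ _ h0] at h3

theorem iitaka_of_sys {n : ℕ} {ι : Type} {F : ι → MvPolynomial (Fin (n + 1)) ℂ} {s N : ℕ} (hC : Sys ∅ F s N) :
    IitakaComponents F := by
  intro L _ _ w y hw hy hcomp
  have hess : Algebra.EssFiniteType ℂ L := essFinite hy.gen
  have htf := Pool.Agent.R869.Wd.general_or_ruled hC hw hy hcomp
  have hyU : SubVarU ∅ F L w y := subVar_iff.2 hy
  have hU := componentU_of hcomp
  have hdich : ¬ Pool.Agent.W619.PQ.IsUniruled ℂ L w → GeneralType ℂ L w := by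
    intro hun
    by_contra hgt
    apply hun
    have h1 : ¬ ∀ b : Fin (n + 1) → ℤ, Acts ∅ ℂ y b → ∀ i i', y i ≠ 0 → y i' ≠ 0 → b i = b i' :=
      fun h => hgt ((htf.out 0 3).2 h)
    push Not at h1
    obtain ⟨b, hb, i, i', hi, hi', hne⟩ := h1
    obtain ⟨c, hc⟩ := contracts_of_acts hyU.unit hi hi' hne hb (fun j hj => absurd hj (Set.notMem_empty j))
    obtain ⟨M, iM, aM, φ, h2, h3, -⟩ := a1_of_contracts hyU.unit hyU.gen hyU.dim hc
    exact ⟨M, iM, aM, h2, h3, ⟨φ⟩⟩
  refine ⟨hdich, fun Z b f hZ hf i j hi hj => ?_⟩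
  obtain ⟨w', rfl⟩ : ∃ w', w = w' + 1 := ⟨w - 1, by omega⟩
  have hgt := hdich (J4.H18.IT.not_uniruled_of_fib hy.dim Z hZ hf hi hj)
  refine ⟨J4.H18.IT.kodGe_mono ?_ (kodw_of_general hgt), hgt⟩
  have hj' : j ≤ b := J4.H18.IT.kodGe_le hZ hj
  have hi' : i ≤ f := J4.H18.IT.kodGe_le (J4.H18.IT.geo_data Z hf).1 hi
  have hdim : b + f = w' + 1 := by
    have h3 := trdeg_add_eq ℂ Z (A := L)
    rw [hZ, hf, hy.dim] at h3
    exact_mod_cast h3
  omega

end Pool.Agent.J4.H93.WK.RI
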