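import Pool.Agent.J4.H93.WK.NF
import Pool.Agent.J4.H93.WK.RI

/-!
Klt pairs on the projective models of the components of varieties given by wide systems of forms.
-/

set_option autoImplicit false

open FF Module IntermediateField MvPolynomial Pool.Agent.W602.GT Pool.Agent.R869.Wd
open Pool.Agent.Y172 (NormalModel IsPrimeDivisor Effective Integral kodairaDim numericalDim)
open Pool.Agent.Y191 (LogDisc)
open Pool.Agent.R887 (LogNef)
open Pool.Agent.N133.PC (Klt OverCoord Tangent)

namespace Pool.Agent.J4.H93.WK.AB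

section defs

variable {n N : ℕ} {K : Type} [Field K] [Algebra ℂ K]

/-- No one-parameter group `t ↦ diag (t ^ b_j)` of diagonal matrices acts nontrivially on the variety with the generic point `z`. -/
def Rigid (z : Fin (n + 1) → K) : Prop :=
  ∀ b, Acts ∅ ℂ z b → ∀ i i', z i ≠ 0 → z i' ≠ 0 → b i = b i'

/-- `K_X + Δ` is big: `κ (K_X + Δ) = ν (K_X + Δ) = dim X`. -/
def BigPair (y : Fin (N + 1) → K) (w : ℕ) (Δ : Place ℂ K → ℚ) : Prop :=
  kodairaDim y w Δ = (w : WithBot ℕ) ∧ ∀ A, Effective y A → Integral y A → numericalDim y w Δ A = (w : EReal)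

/-- `κ (K_X + Δ) = ν (K_X + Δ) = -∞`, and `K_X + Δ` is not nef. -/
def NegativePair (y : Fin (N + 1) → K) (w : ℕ) (Δ : Place ℂ K → ℚ) : Prop :=
  kodairaDim y w Δ = ⊥ ∧ (∀ A, Effective y A → numericalDim y w Δ A = ⊥) ∧ ¬ LogNef y w Δ

/-- Each prime divisor over `X` with negative discrepancy lies over a coordinate hyperplane of the projective space of the variety
with the generic point `z`, or is invariant under the one-parameter groups of diagonal matrices which act on this variety. -/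
def CanonicalOff (z : Fin (n + 1) → K) (y : Fin (N + 1) → K) (w : ℕ) (Δ : Place ℂ K → ℚ) : Prop :=
  ∀ Q, Divisorial w Q → LogDisc y w Δ Q 1 ∨ OverCoord z Q ∨ ∀ b, Acts ∅ ℂ z b → Tangent z b Q

end defs

/-- Let `V` be any irreducible component, of dimension `w ≥ 1`, of the complex projective variety `{F = 0}`; `K` is its function
field and `z` its generic point. Let `X` be any normal projective variety birational to `V`, with generic point `y`, and `Δ` any
effective `ℚ`-divisor on `X`. If no one-parameter group of diagonal matrices acts on `V` then `κ (K_X + Δ) = ν (K_X + Δ) = w`. If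
such a group acts on `V`, and `(X, Δ)` is klt with `CanonicalOff`, then `κ (K_X + Δ) = ν (K_X + Δ) = -∞` and `K_X + Δ` is not
nef. -/
def AbundanceComponents {n : ℕ} {ι : Type} (F : ι → MvPolynomial (Fin (n + 1)) ℂ) : Prop :=
  ∀ (K : Type) [Field K] [Algebra ℂ K] (w : ℕ) (z : Fin (n + 1) → K), 1 ≤ w → SubVar F K w z → IsComponent F z →
    ∀ (N : ℕ) (y : Fin (N + 1) → K) (Δ : Place ℂ K → ℚ), NormalModel y → Effective y Δ →
      (Rigid z → BigPair y w Δ) ∧ (¬ Rigid z → Klt y w Δ → CanonicalOff z y w Δ → NegativePair y w Δ)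

theorem effective_zero {K : Type} [Field K] [Algebra ℂ K] {N : ℕ} {y : Fin (N + 1) → K} : Effective y (0 : Place ℂ K → ℚ) :=
  ⟨fun _ _ => le_rfl, Set.finite_empty.subset (by rintro P ⟨-, h⟩; exact h rfl)⟩

theorem abundance_of_sys {n : ℕ} {ι : Type} {F : ι → MvPolynomial (Fin (n + 1)) ℂ} {s M : ℕ} (hC : Sys ∅ F s M) :
    AbundanceComponents F := by
  intro K _ _ w z hw hz hcomp N y Δ hy hΔ
  have htf := Pool.Agent.R869.Wd.general_or_ruled hC hw hz hcomp
  have hzU : SubVarU ∅ F K w z := subVar_iff.2 hz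
  refine ⟨fun hr => Pool.Agent.N133.PC.pair_big hy hz.dim hΔ ((htf.out 0 3).2 hr), fun hr hk hcan => ?_⟩
  unfold Rigid at hr
  push Not at hr
  obtain ⟨b, hb, i, i', hi, hi', hne⟩ := hr
  have hmin : ∀ j ∈ (∅ : Set (Fin (n + 1))), ∀ l, z l ≠ 0 → b j ≤ b l := fun j hj => absurd hj (Set.notMem_empty j)
  have hH : ∀ G : MvPolynomial (Fin (n + 1)) ℂ, IsForm G → val z G = 0 → ∀ v, val z (wc b v G) = 0 :=
    fun G hG h v => Pool.Agent.N133.PC.hom_of_acts hzU.unit hi hb G hG h v
  have hcan' : ∀ Q, Divisorial w Q → LogDisc y w Δ Q 1 ∨ OverCoord z Q ∨ Tangent z b Q :=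
    fun Q hQ => (hcan Q hQ).imp_right fun h => h.imp_right fun h => h b hb
  have hklt : ∀ Q, Divisorial w Q → ¬ OffU ∅ z Q → ∃ α > 0, LogDisc y w Δ Q α := fun Q hQ _ => hk.disc hQ
  have key : ∀ A, Effective y A → kodairaDim y w Δ = ⊥ ∧ numericalDim y w Δ A = ⊥ := fun A hA =>
    Pool.Agent.N133.PC.pair_acts hy hz.dim hk.lc hzU.unit hzU.gen hi hi' hne hmin hH hcan' hklt hA
  exact ⟨(key 0 effective_zero).1, fun A hA => (key A hA).2,
    Pool.Agent.J4.H93.WK.NF.acts_not_nef hy hz.dim hw hk.lc hzU.unit hzU.gen hi hi' hne hmin hH hcan' hklt⟩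

end Pool.Agent.J4.H93.WK.AB
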