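import Pool.Agent.N133.PC8
import Pool.Agent.R887.Nef
import Pool.Agent.R887.DefsNefP
import Pool.Agent.Y191.UCore

/-!
Log canonical divisors on varieties with a contracting one-parameter group are not nef.
-/

set_option autoImplicit false
set_option linter.overlappingInstances false
set_option linter.unusedSectionVars false

open FF IntermediateField Pool.Agent.W603.LV Pool.Agent.W602.GT Pool.Agent.W619.PQ
open Pool.Agent.Y172 (NormalModel IsPrimeDivisor Through OrdGe OrdEq Effective Integral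
  LogCanonical IsSection kodairaDim numericalDim IsFrame Centred chart localRing)
open Pool.Agent.Y191 (LogDisc)
open Pool.Agent.R887 (LogNef)
open Pool.Agent.N133.PC

namespace Pool.Agent.J4.H93.WK.NF

section

variable {K : Type} [Field K] [Algebra ℂ K] {n N : ℕ} {y : Fin (N + 1) → K}

/-- **The order of a section of `m (K_X + Δ) + t A` at a place over a variety.** -/
theorem disc_boundS (hy : NormalModel y) {Δ A : Place ℂ K → ℚ} (hA : Effective y A)
    {D : Fin n → Derivation ℂ K K} (hD : IsFrame D) (j : Fin (N + 1)) :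
    ∃ s ∈ chart y j, s ≠ 0 ∧ ∀ Q : Place ℂ K, Centred y j Q → ∀ α : ℚ,
      LogDisc y n Δ Q α → ∀ m t : ℕ, 1 ≤ m →
      ∀ ω, IsSection y n m (m • Δ + t • A) ω → OrdGe Q ω (m * (α - 1) - t * (Q.ord s : ℤ)) := by
  classical
  obtain ⟨s, hs, hs0, hsP⟩ := Pool.Agent.Y172.exists_high (y := y) (j := j)
    (S := {P | IsPrimeDivisor y P ∧ Centred y j P ∧ A P ≠ 0})
    (hA.2.subset (by
      rintro P ⟨h1, -, h2⟩
      exact ⟨h1, h2⟩)) (fun P hP => hP.2.1) (fun P hP => hP.1) (fun P => ⌈A P⌉₊)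
  have hsA : ∀ P, IsPrimeDivisor y P → Centred y j P → A P ≤ (P.ord s : ℚ) := by
    intro P hP hPc
    by_cases hAP : A P = 0
    · rw [hAP]
      have := (P.reg_iff hs0).1 (hPc.reg s hs)
      exact_mod_cast this
    · have h6 := hsP P ⟨hP, hPc, hAP⟩
      have h7 : A P ≤ (⌈A P⌉₊ : ℚ) := Nat.le_ceil _
      exact h7.trans (by exact_mod_cast h6)
  refine ⟨s, hs, hs0, fun Q hj α hα m t hm ω hω E' hE' => ?_⟩
  have hm' : (0 : ℚ) < m := by exact_mod_cast hm
  have ht' : (0 : ℚ) ≤ t := Nat.cast_nonneg t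
  rcases hα with ⟨hQ, hα⟩ | ⟨r, hr, η, hη, hηP, hηQ⟩
  · refine (hω.2 Q hQ E' hE').imp_right fun h1 => le_trans ?_ h1
    have h2 := mul_le_mul_of_nonneg_left (hsA Q hQ hj) ht'
    rw [Pi.add_apply, Pi.smul_apply, Pi.smul_apply, nsmul_eq_mul, nsmul_eq_mul]
    nlinarith
  by_cases hωD : ω E' = 0
  · exact Or.inl hωD
  right
  have hfr := Pool.Agent.Y191.frame_of_ne hD hm hω.1 hωD
  have hηD : η E' ≠ 0 := by
    intro h
    obtain ⟨P, hP, hPQ⟩ := Pool.Agent.Y172.exists_through hy Q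
    obtain ⟨-, E, -, hE0, -⟩ := hηP P hP hPQ
    have h1 := Pool.Agent.Y172.pluri_zero hfr hη h
    rw [h1] at hE0
    exact hE0 rfl
  have hηo : (r : ℚ) * (α - 1) ≤ Q.ord (η E') := (hηQ E' hE').resolve_left hηD
  obtain ⟨F, hF⟩ : ∃ F, F = ω E' ^ r * (s ^ t) ^ r / η E' ^ m := ⟨_, rfl⟩
  have h1 : ω E' ^ r ≠ 0 := pow_ne_zero _ hωD
  have h2 : (s ^ t) ^ r ≠ 0 := pow_ne_zero _ (pow_ne_zero _ hs0)
  have h3 : η E' ^ m ≠ 0 := pow_ne_zero _ hηD
  have hF0 : F ≠ 0 := by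
    rw [hF]
    exact div_ne_zero (mul_ne_zero h1 h2) h3
  have hr' : (0 : ℚ) < r := by exact_mod_cast hr
  have hFreg : F ∈ localRing y Q := by
    refine Pool.Agent.Y172.mem_localRing_of_reg hy fun P hP hPQ => ?_
    have hPc := hPQ.centred hj
    obtain ⟨-, E, hE, hE0, hEo⟩ := hηP P hP hPQ
    choose C hC using fun i => hfr (E i)
    have e1 : E = fun i => ∑ j, Matrix.of C i j • E' j := funext hC
    have hE1 : η E = (Matrix.of C).det ^ r * η E' := by
      conv_lhs => rw [e1]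
      exact hη _ _
    have hE2 : ω E = (Matrix.of C).det ^ m * ω E' := by
      conv_lhs => rw [e1]
      exact hω.1 _ _
    obtain ⟨c, hc⟩ : ∃ c, c = (Matrix.of C).det := ⟨_, rfl⟩
    rw [← hc] at hE1 hE2
    have hc0 : c ≠ 0 := by
      rintro rfl
      rw [zero_pow hr.ne', zero_mul] at hE1
      exact hE0 hE1
    have hωE : ω E ≠ 0 := by
      rw [hE2]
      exact mul_ne_zero (pow_ne_zero _ hc0) hωD
    have hF' : F = ω E ^ r * (s ^ t) ^ r / η E ^ m := by
      have e2 : (c ^ m) ^ r = c ^ (m * r) := by rw [← pow_mul]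
      have e3 : (c ^ r) ^ m = c ^ (m * r) := by rw [← pow_mul, mul_comm r m]
      rw [hF, hE1, hE2, mul_pow, mul_pow, e2, e3]
      have h4 : c ^ (m * r) ≠ 0 := pow_ne_zero _ hc0
      field_simp
    have h4 : -(m * Δ P + t * A P) ≤ (P.ord (ω E) : ℚ) := by
      have := (hω.2 P hP E hE).resolve_left hωE
      rwa [Pi.add_apply, Pi.smul_apply, Pi.smul_apply, nsmul_eq_mul, nsmul_eq_mul] at this
    have h5 := mul_le_mul_of_nonneg_left (hsA P hP hPc) ht'
    rw [P.reg_iff hF0, hF', P.ord_div (mul_ne_zero (pow_ne_zero _ hωE) h2) (pow_ne_zero _ hE0),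
      P.ord_mul (pow_ne_zero _ hωE) h2, P.ord_pow, P.ord_pow, P.ord_pow, P.ord_pow]
    have h6 : (0 : ℚ) ≤ (r * P.ord (ω E) + r * (t * P.ord s) - m * P.ord (η E) : ℚ) := by
      rw [hEo]
      nlinarith
    exact_mod_cast h6
  have h4 := (Q.reg_iff hF0).1 (Pool.Agent.Y172.localRing_reg hFreg)
  rw [hF, Q.ord_div (mul_ne_zero h1 h2) h3, Q.ord_mul h1 h2, Q.ord_pow, Q.ord_pow,
    Q.ord_pow, Q.ord_pow] at h4
  have h4' : (0 : ℚ) ≤ r * Q.ord (ω E') + r * (t * Q.ord s) - m * Q.ord (η E') := by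
    exact_mod_cast h4
  have h6 := mul_le_mul_of_nonneg_left hηo hm'.le
  have h5 : (r : ℚ) * (m * (α - 1)) ≤ r * (Q.ord (ω E') + t * Q.ord s) := by
    nlinarith
  have h7 := le_of_mul_le_mul_left h5 hr'
  linarith

/-- **Sections at all places.** The sections of `m (K_X + Δ) + t A`, in terms of the log
discrepancies. -/
theorem secC_of_sectionS (hy : NormalModel y) (hn : Algebra.trdeg ℂ K = n) {Δ A : Place ℂ K → ℚ}
    (hA : Effective y A) (hLC : LogCanonical y n Δ) :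
    ∃ S : Finset K, ∀ c : Place ℂ K → ℚ, (∀ Q, Divisorial n Q → LogDisc y n Δ Q (1 - c Q)) →
      ∀ m t : ℕ, 1 ≤ m → ∀ ω, IsSection y n m (m • Δ + t • A) ω → SecC ℂ K n m c S t ω := by
  classical
  have hess := hy.ess
  obtain ⟨D, hD⟩ := exists_frame (K := K) hn
  choose s hs hs0 hsQ using fun j : Fin (N + 1) => disc_boundS (Δ := Δ) hy hA hD j
  refine ⟨Finset.univ.image fun j => (s j)⁻¹, fun c hc m t hm ω hω => ⟨hω.1, ?_, ?_⟩⟩
  · intro Q hQ E hE
    obtain ⟨j, hj⟩ := Pool.Agent.Y172.exists_centred hy Q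
    have hst : s j ^ t ≠ 0 := pow_ne_zero _ (hs0 j)
    have h1 := hsQ j Q hj 0 (lc_disc hLC hQ) m t hm ω hω
    have h2 := Pool.Agent.Y172.log_ge hn hQ (pluri_smul' hω.1 (s j ^ t)) (fun F hF => by
      rcases h1 F hF with h3 | h3
      · exact Or.inl (by rw [h3, mul_zero])
      by_cases h4 : ω F = 0
      · exact Or.inl (by rw [h4, mul_zero])
      right
      rw [Q.ord_mul hst h4, Q.ord_pow]
      push_cast at h3 ⊢
      linarith) hE
    by_cases h3 : ω E = 0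
    · exact Or.inl h3
    refine Or.inr ⟨(s j)⁻¹, Finset.mem_image_of_mem _ (Finset.mem_univ j),
      inv_ne_zero (hs0 j), ?_⟩
    have h4 := h2.resolve_left (mul_ne_zero hst h3)
    rw [Q.ord_mul hst h3, Q.ord_pow] at h4
    rw [Q.ord_inv]
    linarith
  · intro Q hQ E hE
    obtain ⟨j, hj⟩ := Pool.Agent.Y172.exists_centred hy Q
    have h1 := hsQ j Q hj (1 - c Q) (hc Q hQ) m t hm ω hω E hE
    rcases h1 with h3 | h3
    · exact Or.inl h3
    refine Or.inr ⟨(s j)⁻¹, Finset.mem_image_of_mem _ (Finset.mem_univ j),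
      inv_ne_zero (hs0 j), ?_⟩
    rw [Q.ord_inv]
    push_cast at h3 ⊢
    linarith

/-- **Pairs on ruled varieties**: all sections of `m (K_X + Δ) + t A` vanish for `m ≥ N₀ t`. -/
theorem ruled_vanish (hy : NormalModel y) (hn : Algebra.trdeg ℂ K = n) {Δ : Place ℂ K → ℚ}
    (hLC : LogCanonical y n Δ) (δ : Derivation ℂ K K) {σ : K} (hσ0 : σ ≠ 0) (hσ : δ σ = σ)
    (htop : (consts δ)⟮σ⟯ = ⊤)
    (hcan : ∀ Q, Divisorial n Q → Horiz δ Q → Q.ord σ = 0 → LogDisc y n Δ Q 1)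
    (hklt : ∀ Q, Divisorial n Q → Horiz δ Q → 0 < Q.ord σ → ∃ α > 0, LogDisc y n Δ Q α)
    {A : Place ℂ K → ℚ} (hA : Effective y A) :
    ∃ N0 : ℕ, ∀ t : ℕ, 1 ≤ t → ∀ m : ℕ, 1 ≤ m → t * N0 ≤ m → ∀ ω,
      IsSection y n m (m • Δ + t • A) ω → ∀ D, ω D = 0 := by
  classical
  -- the coefficients
  obtain ⟨c, c0, hc0, hc, hc1, hc2⟩ : ∃ (c : Place ℂ K → ℚ) (c0 : ℚ), c0 < 1 ∧
      (∀ Q, Divisorial n Q → LogDisc y n Δ Q (1 - c Q)) ∧
      (∀ P, Horiz δ P → P.ord σ = 0 → c P = 0) ∧ ∀ P, Horiz δ P → 0 < P.ord σ → c P ≤ c0 := by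
    by_cases hex : ∃ Q, Divisorial n Q ∧ Horiz δ Q ∧ 0 < Q.ord σ
    · obtain ⟨Q0, h1, h2, h3⟩ := hex
      obtain ⟨α, hα, hd⟩ := hklt Q0 h1 h2 h3
      refine ⟨fun Q => if Horiz δ Q ∧ Q.ord σ = 0 then 0 else if Q = Q0 then 1 - α else 1,
        1 - α, by linarith, fun Q hQ => ?_, fun P hP h0 => if_pos ⟨hP, h0⟩, fun P hP h4 => ?_⟩
      · dsimp only
        split_ifs with h4 h5
        · rw [sub_zero]
          exact hcan Q hQ h4.1 h4.2
        · rw [h5]
          have e : (1 : ℚ) - (1 - α) = α := by ring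
          rw [e]
          exact hd
        · rw [sub_self]
          exact lc_disc hLC hQ
      · have h5 : P = Q0 := horiz_unique hσ0 htop hP h2 h4 h3
        dsimp only
        rw [if_neg (fun h => by omega), if_pos h5]
    · push Not at hex
      refine ⟨fun Q => if Horiz δ Q ∧ (Q.ord σ = 0 ∨ ¬ Divisorial n Q) then 0 else 1,
        1 / 2, by norm_num, fun Q hQ => ?_, fun P hP h0 => if_pos ⟨hP, Or.inl h0⟩,
        fun P hP h4 => ?_⟩
      · dsimp only
        split_ifs with h4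
        · rw [sub_zero]
          exact hcan Q hQ h4.1 (h4.2.resolve_right fun h => h hQ)
        · rw [sub_self]
          exact lc_disc hLC hQ
      · dsimp only
        rw [if_pos]
        · norm_num
        · refine ⟨hP, Or.inr fun h => ?_⟩
          have := hex P h hP
          omega
  obtain ⟨S, hS⟩ := secC_of_sectionS hy hn hA hLC
  obtain ⟨N0, hN0⟩ := vanishC hn δ hσ0 hσ htop hc0 hc1 hc2 S
  exact ⟨N0, fun t ht m hm hle ω hω D => hN0 t ht m hle ω (hS c hc m t hm ω hω) D⟩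

/-- a variety of positive dimension has a prime divisor -/
theorem exists_prime (hy : NormalModel y) (hn : Algebra.trdeg ℂ K = n) (hn0 : 0 < n) :
    ∃ P, IsPrimeDivisor y P := by
  classical
  have hess := hy.ess
  obtain ⟨Z, -, hZ, -⟩ := Pool.Agent.Y172.exists_crd hn (k := ℂ) (K := K)
  have : Nonempty (Fin n) := ⟨⟨0, hn0⟩⟩
  have hfd : FiniteDimensional (IntermediateField.adjoin ℂ (Set.range Z)) K :=
    Pool.Agent.Y172.fd_basis hZ
  obtain ⟨v, -⟩ := Pool.Agent.Y191.exists_bplace (k := ℂ) (Finset.univ : Finset (Fin n))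
    Finset.univ_nonempty (Pool.Agent.Y191.crd_gens (k := ℂ) hZ.1)
  obtain ⟨Q, e, -⟩ := Pool.Agent.Y172.exists_above (L := K) v
  obtain ⟨P, hP, -⟩ := Pool.Agent.Y172.exists_through hy Q
  exact ⟨P, hP⟩

/-- If all the sections of `m (K_X + Δ) + t A` vanish for `m ≥ N₀ t`, then `K_X + Δ` is not nef. -/
theorem not_nef_of_vanish (hy : NormalModel y) (hn : Algebra.trdeg ℂ K = n) (hn1 : 1 ≤ n)
    {Δ : Place ℂ K → ℚ}
    (h : ∀ A, Effective y A → ∃ N0 : ℕ, ∀ t : ℕ, 1 ≤ t → ∀ m : ℕ, 1 ≤ m → t * N0 ≤ m → ∀ ω,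
      IsSection y n m (m • Δ + t • A) ω → ∀ D, ω D = 0) : ¬ LogNef y n Δ := by
  classical
  intro hnef
  obtain ⟨i, hi⟩ := hy.ne
  obtain ⟨A, hA, hAP⟩ := Pool.Agent.R887.exists_hyp hy hi
  obtain ⟨N0, hN0⟩ := h A hA
  obtain ⟨m, hm, hgen⟩ := hnef i hi (N0 + 1) (by omega)
  obtain ⟨P, hP⟩ := exists_prime hy hn (by omega)
  obtain ⟨ω, hω, hωg⟩ := hgen P (hP.divisorial hy hn)
  obtain ⟨l, hl⟩ := Pool.Agent.Y172.exists_centred hy P
  obtain ⟨-, E, -, hE0, -⟩ := hωg P l hP (fun f hf => Pool.Agent.Y172.localRing_reg hf) hl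
  have hm1 : 1 ≤ m * (N0 + 1) := Nat.mul_pos hm (Nat.succ_pos _)
  refine hE0 (hN0 m hm (m * (N0 + 1)) hm1 (Nat.mul_le_mul_left _ (Nat.le_succ _)) ω ⟨hω.1, ?_⟩ E)
  intro P' hP'
  obtain ⟨l', hl'⟩ := Pool.Agent.Y172.exists_centred hy P'
  have h1 := hω.2 P' l' hP' hl'
  have e : (-((m * (N0 + 1)) • Δ + m • A) P' : ℚ) =
      -((m * (N0 + 1) : ℕ) * Δ P') - m * P'.ord (y i / y l') := by
    rw [Pi.add_apply, Pi.smul_apply, Pi.smul_apply, nsmul_eq_mul, nsmul_eq_mul,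
      hAP P' l' hP' hl']
    ring
  rw [e]
  exact h1

end

section acts

variable {K : Type} [Field K] [Algebra ℂ K] {N w m : ℕ} {y : Fin (N + 1) → K}
  {z : Fin (m + 1) → K}

/-- **One-parameter groups**: pairs on varieties with a contracting one-parameter group are not
nef. -/
theorem acts_not_nef {U : Set (Fin (m + 1))} (hy : NormalModel y) (hn : Algebra.trdeg ℂ K = w)
    (hw : 1 ≤ w)
    {Δ : Place ℂ K → ℚ} (hLC : LogCanonical y w Δ) (hzU : ∀ j ∈ U, z j ≠ 0)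
    (hgen : coords ℂ z = ⊤) {b : Fin (m + 1) → ℤ}
    {i i' : Fin (m + 1)} (hi : z i ≠ 0) (hi' : z i' ≠ 0) (hb : b i ≠ b i')
    (hmin : ∀ j ∈ U, ∀ l, z l ≠ 0 → b j ≤ b l)
    (hH : ∀ G : MvPolynomial (Fin (m + 1)) ℂ, IsForm G → val z G = 0 →
      ∀ v, val z (wc b v G) = 0)
    (hcan : ∀ Q, Divisorial w Q → LogDisc y w Δ Q 1 ∨ OverCoord z Q ∨ Tangent z b Q)
    (hklt : ∀ Q, Divisorial w Q → ¬ OffU U z Q → ∃ α > 0, LogDisc y w Δ Q α) :
    ¬ LogNef y w Δ := by
  obtain ⟨δ, σ, g, b', hσ0, hσ, htop, hg, hb', hz⟩ := exists_delta hgen b hi hi' hb hH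
  refine not_nef_of_vanish hy hn hw fun A hA => ruled_vanish hy hn hLC δ hσ0 hσ htop
    (fun Q hQ hP h0 => ?_) (fun Q hQ hP hPσ => ?_) hA
  · rcases hcan Q hQ with h1 | ⟨j, l, hj, hl, hne⟩ | h1
    · exact h1
    · exact absurd (by
        rw [ord_ratio hσ0 hi hz hP hj, ord_ratio hσ0 hi hz hP hl, h0, mul_zero, mul_zero]) hne
    · exfalso
      refine not_derLog hσ0 hσ htop hP h0 (derLog_of_smul hg.ne' (h1 ((g : K) • δ) ?_))
      have hδ : ∀ j, δ (z j / z i) = ((b' j : ℤ) : K) * (z j / z i) := by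
        intro j
        by_cases hj : z j = 0
        · rw [hj, zero_div, map_zero, mul_zero]
        obtain ⟨u, hu0, hu, hzj⟩ := hz j hj
        rw [hzj, δ.leibniz, hu, smul_zero, add_zero, smul_eq_mul, Derivation.leibniz_zpow]
        rw [hσ]
        simp only [smul_eq_mul, zsmul_eq_mul]
        have h2 : σ ^ (b' j - 1) * σ = σ ^ b' j := by
          rw [← zpow_add_one₀ hσ0, sub_add_cancel]
        linear_combination (u * (b' j : K)) * h2
      intro j l hl
      by_cases hj : z j = 0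
      · rw [hj, zero_div, map_zero, mul_zero]
      rw [Derivation.smul_apply, smul_eq_mul]
      have h2 : z j / z l = (z j / z i) / (z l / z i) := by
        field_simp
      have h3 : z l / z i ≠ 0 := div_ne_zero hl hi
      have h4 : δ (z j / z l) = ((b' j - b' l : ℤ) : K) * (z j / z l) := by
        rw [h2, Derivation.leibniz_div, hδ, hδ]
        simp only [smul_eq_mul]
        push_cast
        field_simp
      rw [h4, ← mul_assoc]
      congr 1
      have h5 := hb' j hj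
      have h6 := hb' l hl
      have h7 : b j - b l = g * (b' j - b' l) := by
        linear_combination h5 - h6
      rw [h7]
      push_cast
      ring
  · refine hklt Q hQ ?_
    rintro ⟨j, hj, l, hl, hlt⟩
    rw [ord_ratio hσ0 hi hz hP hl, ord_ratio hσ0 hi hz hP (hzU j hj)] at hlt
    have h2 := hmin j hj l hl
    have h3 := hb' l hl
    have h4 := hb' j (hzU j hj)
    have h5 : 0 ≤ g * (b' l - b' j) := by
      rw [mul_sub, ← h3, ← h4]
      linarith
    have h6 : 0 ≤ b' l - b' j := by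
      by_contra hcon
      push Not at hcon
      have := mul_neg_of_pos_of_neg hg hcon
      linarith
    have h7 := mul_nonneg h6 hPσ.le
    nlinarith

end acts

end Pool.Agent.J4.H93.WK.NF
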