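import Pool.Agent.J4.H93.WK.WK1

/-!
The logarithmic Kodaira dimension of components of varieties given by systems of forms that are wide
on a cone of directions.
-/

set_option autoImplicit false

open FF IntermediateField Pool.Agent.W603.LV Pool.Agent.W602.GT Pool.Agent.R869.Wd

namespace Pool.Agent.J4.H93.WK

variable {k : Type} [Field k] {n : ℕ} {ι : Type}

/-- The system of forms `F` is `N`-wide on the cones of the directions `u` that are minimal on `U`. Let
`I` be a set of variables that contains `U`, and consider at most `n` pairs `α l`, `β l` of (exponents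
of) monomials in the variables of `I` which occur in the same form. If the sum of the segments from
`α l` to `β l` has positive width in all directions `u` (the integer vectors that are not constant on
`I`) that are minimal on `U`, then its width in all these directions is at least `N`. -/
def WideK (U : Set (Fin (n + 1))) (F : ι → MvPolynomial (Fin (n + 1)) k) (N : ℕ) : Prop :=
  ∀ (I : Set (Fin (n + 1))) (r : ℕ) (e : Fin r → ι) (α β : Fin r → (Fin (n + 1) →₀ ℕ)),
    U ⊆ I → r ≤ n →
    (∀ l, α l ∈ (F (e l)).support ∧ β l ∈ (F (e l)).support ∧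
      ∀ j, j ∉ I → α l j = 0 ∧ β l j = 0) →
    (∀ u : Fin (n + 1) → ℤ, (∃ i ∈ I, ∃ j ∈ I, u i ≠ u j) → (∀ i ∈ U, ∀ j ∈ I, u i ≤ u j) →
      0 < ∑ l, |wgt u (α l) - wgt u (β l)|) →
    ∀ u : Fin (n + 1) → ℤ, (∃ i ∈ I, ∃ j ∈ I, u i ≠ u j) → (∀ i ∈ U, ∀ j ∈ I, u i ≤ u j) →
      (N : ℤ) ≤ ∑ l, |wgt u (α l) - wgt u (β l)|

theorem WideK.of_wide {F : ι → MvPolynomial (Fin (n + 1)) k} {N : ℕ} (h : Wide ∅ F N) :
    WideK ∅ F N := by
  intro I r e α β hU hr hm hpos u hu _
  exact h I r e α β hU hr hm (fun u hu => hpos u hu fun i hi => absurd hi (Set.notMem_empty i)) u hu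
    fun i hi => absurd hi (Set.notMem_empty i)

/-- contractions from integral directions -/
theorem contracts_of_dir [CharZero k] [IsAlgClosed k] {U : Set (Fin (n + 1))}
    {F : ι → MvPolynomial (Fin (n + 1)) k} (hF : ∀ e, IsForm (F e)) {K : Type} [Field K]
    [Algebra k K] {w : ℕ} {y : Fin (n + 1) → K} (hy : SubVarU U F K w y)
    (hcomp : IsComponentU U F y) (u : Fin (n + 1) → ℤ)
    (hmin : ∀ j ∈ U, ∀ l, y l ≠ 0 → u j ≤ u l)
    (hperp : ∀ (e : ι) (C : CD k (gg y (F e))) (a a' : Fin (C.m + 1)),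
      ∑ l, df (C.e a) (C.e a') l * u l = 0)
    {i i' : Fin (n + 1)} (hi : y i ≠ 0) (hi' : y i' ≠ 0) (hne : u i ≠ u i') :
    ∃ b, Contracts U k y b := by
  classical
  have hinf : Infinite k := inferInstance
  obtain ⟨j0, hj0, hmin0⟩ := Finset.exists_min_image (Finset.univ.filter fun j => y j ≠ 0)
    (fun j => u j) ⟨i, by simpa using hi⟩
  have hj0' : y j0 ≠ 0 := (Finset.mem_filter.1 hj0).2
  have hmin' : ∀ j, y j ≠ 0 → u j0 ≤ u j := fun j hj =>
    hmin0 j (Finset.mem_filter.2 ⟨Finset.mem_univ _, hj⟩)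
  set μ := u j0 with hμ
  let b : Fin (n + 1) → ℕ := fun j => if y j = 0 then 0 else (u j - μ).toNat
  have hb : ∀ j, y j ≠ 0 → (b j : ℤ) = u j - μ := by
    intro j hj
    simp only [b, if_neg hj]
    exact Int.toNat_of_nonneg (sub_nonneg.2 (hmin' j hj))
  refine ⟨b, contracts_of_hom (fun j hj => ?_) ⟨j0, hj0', ?_⟩ ?_ ?_⟩
  · have h1 : u j ≤ μ := hmin j hj j0 hj0'
    have h2 := hb j (hy.unit j hj)
    have h3 := hmin' j (hy.unit j hj)
    omega
  · have h2 := hb j0 hj0'
    omega
  · by_contra hcon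
    push Not at hcon
    apply hne
    have h1 := hb i hi
    have h2 := hb i' hi'
    rw [hcon i hi] at h1
    rw [hcon i' hi'] at h2
    push_cast at h1 h2
    omega
  · refine ideal_hom hy hcomp (fun e v => wc_zero (hy.mem e) (fun C a a' => ?_) v)
    obtain ⟨d, hd⟩ := hF e
    have h1 : ∀ l, df (C.e a) (C.e a') l * (b l : ℤ) =
        df (C.e a) (C.e a') l * u l - df (C.e a) (C.e a') l * μ := by
      intro l
      by_cases hl : y l = 0
      · rw [df_supp _ _ hl]
        ring
      · rw [hb l hl]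
        ring
    rw [Finset.sum_congr rfl fun l _ => h1 l, Finset.sum_sub_distrib, hperp e C a a',
      ← Finset.sum_mul, df_sum hd, zero_mul, sub_zero]

theorem ex_supp {K : Type} [Field K] [Algebra k K] {y : Fin (n + 1) → K}
    {G : MvPolynomial (Fin (n + 1)) k} (i : JJ y G) {l : Fin (n + 1)} (hl : y l = 0) :
    ex i l = 0 := by
  by_contra h0
  apply gg_ne i
  rw [gg_eq, Finset.prod_eq_zero (Finset.mem_univ l), mul_zero]
  rw [hl, zero_pow h0]

theorem wgt_df {K : Type} [Field K] [Algebra k K] {y : Fin (n + 1) → K}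
    {G : MvPolynomial (Fin (n + 1)) k} (u : Fin (n + 1) → ℤ) (i j : JJ y G) :
    wgt u (ex i) - wgt u (ex j) = ∑ l, df i j l * u l := by
  unfold wgt df
  rw [← Finset.sum_sub_distrib]
  exact Finset.sum_congr rfl fun l _ => by push_cast; ring

/-- **The logarithmic Kodaira dimension.** A component of the quasi-projective variety given by a
wide system of forms with few monomials is covered by affine lines, or its logarithmic Kodaira
dimension is its dimension minus the dimension of a torus which acts on it. -/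
theorem kod_wide [CharZero k] [IsAlgClosed k] {U : Set (Fin (n + 1))}
    {F : ι → MvPolynomial (Fin (n + 1)) k} {s N : ℕ} (hF : ∀ e, IsForm (F e))
    (hcard : ∀ e, (F e).support.card ≤ s) (hW : WideK U F N)
    (hN : n * ((s + 1) * tn (s - 1)) ≤ N) {K : Type} [Field K] [Algebra k K] {w : ℕ}
    {y : Fin (n + 1) → K} (hy : SubVarU U F K w y) (hcomp : IsComponentU U F y) :
    (∃ b, Contracts U k y b) ∨ ∃ (h p : ℕ) (b : Fin p → Fin (n + 1) → ℤ), h + p = w ∧
      (∀ l, Acts U k y (b l)) ∧
      (∀ c : Fin p → ℤ, (∀ j j', y j ≠ 0 → y j' ≠ 0 →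
        ∑ l, c l * b l j = ∑ l, c l * b l j') → c = 0) ∧
      KodGe k K w (OffU U y) h ∧ ¬ KodGe k K w (OffU U y) (h + 1) := by
  classical
  by_cases hcontr : ∃ b, Contracts U k y b
  · exact Or.inl hcontr
  right
  have hK : CharZero K := charZero_of_injective_algebraMap (algebraMap k K).injective
  obtain ⟨i0, hi0⟩ := Function.ne_iff.1 hy.ne
  have hi0' : y i0 ≠ 0 := hi0
  -- the differences of exponents in circuits
  let I : Type := Σ e : ι, Σ C : CD k (gg y (F e)), Fin (C.m + 1) × Fin (C.m + 1)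
  let v : I → Fin (n + 1) → ℤ := fun i => df (i.2.1.e i.2.2.1) (i.2.1.e i.2.2.2)
  obtain ⟨r, φ, hrn, hspan⟩ := span_pick v (fun i => by
    obtain ⟨d, hd⟩ := hF i.1
    exact df_sum hd _ _)
  let m : Fin r → ℕ := fun i => (φ i).2.1.m
  let T : ∀ i, Fin (m i + 1) → K := fun i l => (φ i).2.1.c l • gg y (F (φ i).1) ((φ i).2.1.e l)
  let a : ∀ i, Fin (m i + 1) := fun i => (φ i).2.2.1
  let a' : ∀ i, Fin (m i + 1) := fun i => (φ i).2.2.2
  have hT : ∀ i j, T i j ≠ 0 := fun i j => smul_ne_zero ((φ i).2.1.hc j) (gg_ne _)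
  have hordT : ∀ (P : Place k K) i j, P.ord (T i j) =
      P.ord (gg y (F (φ i).1) ((φ i).2.1.e j)) := fun P i j =>
    ord_smul' P ((φ i).2.1.hc j) _
  let tt : Fin r → K := fun i => T i (a i) / T i (a' i)
  -- the widths
  have hcone : ∀ u : Fin (n + 1) → ℤ, (∃ i, y i ≠ 0 ∧ ∃ j, y j ≠ 0 ∧ u i ≠ u j) →
      (∀ j ∈ U, ∀ l, y l ≠ 0 → u j ≤ u l) → (N : ℤ) ≤ ∑ i, |∑ l, v (φ i) l * u l| := by
    intro u hu hmin
    have h1 := hW {j | y j ≠ 0} r (fun i => (φ i).1) (fun i => ex ((φ i).2.1.e (a i)))
      (fun i => ex ((φ i).2.1.e (a' i))) (fun j hj => hy.unit j hj) hrn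
      (fun i => ⟨ex_mem _, ex_mem _, fun j hj => by
        have hj' : y j = 0 := not_not.1 hj
        exact ⟨ex_supp _ hj', ex_supp _ hj'⟩⟩) (by
        rintro u' ⟨i1, hi1, j1, hj1, hne⟩ hmin'
        by_contra hcon
        push Not at hcon
        have h2 : ∀ i, |wgt u' (ex ((φ i).2.1.e (a i))) - wgt u' (ex ((φ i).2.1.e (a' i)))| = 0 := by
          intro i
          exact (Finset.sum_eq_zero_iff_of_nonneg fun i _ => abs_nonneg _).1
            (le_antisymm hcon (Finset.sum_nonneg fun i _ => abs_nonneg _)) i (Finset.mem_univ _)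
        apply hcontr
        refine contracts_of_dir hF hy hcomp u' (fun j hj l hl => hmin' j hj l hl) ?_ hi1 hj1 hne
        intro e C c c'
        refine hspan u' (fun i => ?_) ⟨e, C, c, c'⟩
        have h3 := abs_eq_zero.1 (h2 i)
        rw [wgt_df] at h3
        exact h3) u (by
        obtain ⟨i1, hi1, j1, hj1, hne⟩ := hu
        exact ⟨i1, hi1, j1, hj1, hne⟩) (fun i hi j hj => hmin i hi j hj)
    refine h1.trans (le_of_eq (Finset.sum_congr rfl fun i _ => ?_))
    rw [wgt_df]
  -- a transcendence basis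
  obtain ⟨h, p, t, u, rfl, ht, hu, hbasis, hkill⟩ := basis_pick hy.dim (Set.range tt)
    {z | ∃ j, y j ≠ 0 ∧ z = y j / y i0} (by
      have h1 : Algebra.IsAlgebraic (coords k y) K := by
        rw [hy.gen]
        infer_instance
      refine alg_mono ?_ h1
      unfold coords
      rw [IntermediateField.adjoin_le_iff]
      rintro _ ⟨i, j, hj, rfl⟩
      have h2 : ∀ l, y l ≠ 0 → y l / y i0 ∈
          IntermediateField.adjoin k {z | ∃ j, y j ≠ 0 ∧ z = y j / y i0} := fun l hl =>
        IntermediateField.subset_adjoin k _ ⟨l, hl, rfl⟩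
      by_cases hi : y i = 0
      · rw [hi, zero_div]
        exact zero_mem _
      · have h3 := div_mem (h2 i hi) (h2 j hj)
        have h4 : y i / y i0 / (y j / y i0) = y i / y j := by field_simp
        rwa [h4] at h3)
  choose idx hidx using ht
  choose jj hjj hujj using hu
  have ht0 : ∀ i, t i ≠ 0 := fun i => by
    rw [← hidx]
    exact div_ne_zero (hT _ _) (hT _ _)
  have hu0 : ∀ l, u l ≠ 0 := fun l => by
    rw [hujj]
    exact div_ne_zero (hjj l) hi0'
  -- the torus
  have hder : ∀ q : Fin p, ∃ D : Derivation k K K, (∀ i, D (t i) = 0) ∧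
      ∀ l, D (u l) = if l = q then u l else 0 := by
    intro q
    obtain ⟨D, hD⟩ := exists_der (Sum.elim t u) hbasis
      (Sum.elim (fun _ => 0) (fun l => if l = q then u l else 0))
    exact ⟨D, fun i => hD (Sum.inl i), fun l => hD (Sum.inr l)⟩
  have hweights : ∀ q : Fin p, ∃ b : Fin (n + 1) → ℤ, b (jj q) ≠ b i0 ∧
      (∀ l, l ≠ q → b (jj l) = b i0) ∧ ∀ i, ∑ l, v i l * b l = 0 := by
    intro q
    obtain ⟨D, hDt, hDu⟩ := hder q
    have hlam : ∀ l, D (y (jj l)) / y (jj l) - D (y i0) / y i0 = if l = q then 1 else 0 := by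
      intro l
      have h1 := hDu l
      rw [hujj l] at h1
      have h2 := hjj l
      have h3 : D (y (jj l) / y i0) = (y (jj l) / y i0) *
          (D (y (jj l)) / y (jj l) - D (y i0) / y i0) := by
        rw [div_eq_mul_inv, D.leibniz, D.leibniz_inv]
        simp only [smul_eq_mul]
        field_simp
        ring
      rw [h3] at h1
      have h4 : y (jj l) / y i0 ≠ 0 := div_ne_zero h2 hi0'
      apply mul_left_cancel₀ h4
      rw [h1]
      split_ifs <;> ring
    obtain ⟨b, hb1, hb2⟩ := int_weights (fun j => D (y j) / y j) (i := jj q) (i' := i0) (by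
      intro h0
      have h1 := hlam q
      rw [if_pos rfl] at h1
      rw [h0, sub_self] at h1
      exact zero_ne_one h1)
    refine ⟨b, hb1, fun l hl => ?_, ?_⟩
    · have h1 := hb2 (fun j => (if j = jj l then 1 else 0) - (if j = i0 then 1 else 0)) (by
        have h2 := hlam l
        rw [if_neg hl] at h2
        simp only [Int.cast_sub, Int.cast_ite, Int.cast_one, Int.cast_zero, sub_mul, ite_mul,
          one_mul, zero_mul, Finset.sum_sub_distrib, Finset.sum_ite_eq', Finset.mem_univ, if_true]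
        exact h2)
      simp only [sub_mul, ite_mul, one_mul, zero_mul, Finset.sum_sub_distrib, Finset.sum_ite_eq',
        Finset.mem_univ, if_true] at h1
      exact sub_eq_zero.1 h1
    · apply hspan
      intro i
      apply hb2
      have h1 := hkill D hDt (tt i) ⟨i, rfl⟩
      have h2 := df_der D ((φ i).2.1.e (a i)) ((φ i).2.1.e (a' i))
      have hga := gg_ne ((φ i).2.1.e (a i))
      have hgb := gg_ne ((φ i).2.1.e (a' i))
      have hca : algebraMap k K ((φ i).2.1.c (a i)) ≠ 0 := by
        rw [Ne, map_eq_zero]; exact (φ i).2.1.hc _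
      have hcb : algebraMap k K ((φ i).2.1.c (a' i)) ≠ 0 := by
        rw [Ne, map_eq_zero]; exact (φ i).2.1.hc _
      have h3 : D (gg y (F (φ i).1) ((φ i).2.1.e (a i))) * gg y (F (φ i).1) ((φ i).2.1.e (a' i)) -
          gg y (F (φ i).1) ((φ i).2.1.e (a i)) * D (gg y (F (φ i).1) ((φ i).2.1.e (a' i))) = 0 := by
        change D ((φ i).2.1.c (a i) • gg y (F (φ i).1) ((φ i).2.1.e (a i)) /
          ((φ i).2.1.c (a' i) • gg y (F (φ i).1) ((φ i).2.1.e (a' i)))) = 0 at h1
        rw [Algebra.smul_def, Algebra.smul_def, div_eq_mul_inv, D.leibniz, D.leibniz_inv,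
          D.leibniz, D.leibniz, D.map_algebraMap, D.map_algebraMap] at h1
        simp only [smul_eq_mul, mul_zero, add_zero] at h1
        field_simp at h1
        rw [mul_zero] at h1
        have h2 := (mul_eq_zero.1 h1).resolve_left hca
        linear_combination h2
      rw [h3] at h2
      exact (mul_eq_zero.1 h2.symm).resolve_left (mul_ne_zero hga hgb)
  choose b hb1 hb2 hb3 using hweights
  have hH : ∀ l, ∀ G : MvPolynomial (Fin (n + 1)) k, IsForm G → val y G = 0 →
      ∀ v, val y (wc (b l) v G) = 0 := fun l =>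
    ideal_hom hy hcomp (fun e v' => wc_zero (hy.mem e) (fun C c c' => hb3 l ⟨e, C, c, c'⟩) v')
  have hle : ∀ h', KodGe k K (h + p) (OffU U y) h' → h' + p ≤ h + p := fun h' hk =>
    kod_le hy.unit hy.gen hy.dim b hi0' jj hjj hb1 hb2 hH hk
  refine ⟨h, p, b, rfl, fun l => acts_of_hom (hH l), ?_, ?_, fun hk => ?_⟩
  · intro c hc
    funext q
    have h1 := hc (jj q) i0 (hjj q) hi0'
    rw [← sub_eq_zero, ← Finset.sum_sub_distrib, Finset.sum_eq_single q] at h1
    · rw [← mul_sub] at h1
      exact (mul_eq_zero.1 h1).resolve_right (sub_ne_zero.2 (hb1 q))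
    · intro l _ hl
      rw [hb2 l q hl.symm, sub_self]
    · intro h2
      exact absurd (Finset.mem_univ _) h2
  · -- the sections
    let x : Fin (h + p) → K := Sum.elim t u ∘ finSumFinEquiv.symm
    have hx : IsTranscendenceBasis k x := hbasis.comp_equiv finSumFinEquiv.symm
    have hx0 : ∀ q, x q ≠ 0 := by
      intro q
      simp only [x, Function.comp_apply]
      rcases finSumFinEquiv.symm q with i | l
      · exact ht0 i
      · exact hu0 l
    obtain ⟨g, hg0, hg, hP⟩ := coreS T hT (fun i => (φ i).2.1.rel) (fun i => (φ i).2.1.lin) x hx0 hx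
      a a'
    have hwt : wt m ≤ N := by
      refine le_trans ?_ hN
      unfold wt
      calc ∑ i, (m i + 2) * tn (m i) ≤ ∑ _i : Fin r, (s + 1) * tn (s - 1) := by
            refine Finset.sum_le_sum fun i _ => ?_
            have h3 : m i + 1 ≤ s := by
              have h4 := Fintype.card_le_of_injective _ (φ i).2.1.he
              simp only [Fintype.card_fin] at h4
              exact (h4.trans (gg_card _ _)).trans (hcard _)
            exact Nat.mul_le_mul (by omega) (tn_mono (by omega))
        _ = r * ((s + 1) * tn (s - 1)) := by simp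
        _ ≤ n * ((s + 1) * tn (s - 1)) := Nat.mul_le_mul_right _ hrn
    let cc : Fin (h + 1) → ∀ i, Fin (m i + 1) :=
      Fin.cases a' fun q => Function.update a' (idx q) (a (idx q))
    -- the directions of the places
    have hmem : ∀ P : Place k K, ¬ OffU U y P → ∀ j ∈ U, ∀ l, y l ≠ 0 →
        P.ord (y j) ≤ P.ord (y l) := by
      intro P hPU j hj l hl
      unfold OffU at hPU
      push Not at hPU
      exact hPU j hj l hl
    have hconst : ∀ P : Place k K, ¬ OffU U y P →
        (∀ i, ∑ l, v (φ i) l * P.ord (y l) = 0) → ∀ i i', y i ≠ 0 → y i' ≠ 0 →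
          P.ord (y i) = P.ord (y i') := by
      intro P hPU h0 i i' hi hi'
      by_contra hne
      apply hcontr
      exact contracts_of_dir hF hy hcomp (fun l => P.ord (y l)) (hmem P hPU)
        (fun e C c c' => hspan (fun l => P.ord (y l)) h0 ⟨e, C, c, c'⟩) hi hi' hne
    refine ⟨max 1 (wt m), by omega, fun j => form x (max 1 (wt m)) (g (cc j)),
      fun j => ⟨form_pluri _ _ _, fun P _ => (hP P).1 _, fun P _ hPU => (hP P).2 ?_ ?_ _⟩, ?_⟩
    · by_cases hdir : ∃ i, y i ≠ 0 ∧ ∃ j, y j ≠ 0 ∧ P.ord (y i) ≠ P.ord (y j)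
      · right
        have h1 := hcone (fun l => P.ord (y l)) hdir (hmem P hPU)
        refine le_trans (by exact_mod_cast hwt) (h1.trans (le_of_eq ?_))
        refine Finset.sum_congr rfl fun i _ => ?_
        rw [hordT, hordT, df_ord]
      · left
        push Not at hdir
        intro i j l
        rw [hordT, hordT, ← sub_eq_zero, df_ord]
        obtain ⟨d, hd⟩ := hF (φ i).1
        have h1 : ∀ q, df ((φ i).2.1.e j) ((φ i).2.1.e l) q * P.ord (y q) =
            df ((φ i).2.1.e j) ((φ i).2.1.e l) q * P.ord (y i0) := by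
          intro q
          by_cases hq : y q = 0
          · rw [df_supp _ _ hq]
            ring
          · rw [hdir q hq i0 hi0']
        rw [Finset.sum_congr rfl fun q _ => h1 q, ← Finset.sum_mul, df_sum hd, zero_mul]
    · intro hall
      have h0 : ∀ i, ∑ l, v (φ i) l * P.ord (y l) = 0 := by
        intro i
        have h1 := hall i (a i) (a' i)
        rw [hordT, hordT, ← sub_eq_zero, df_ord] at h1
        exact h1
      have hcst := hconst P hPU h0
      intro q
      simp only [x, Function.comp_apply]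
      rcases finSumFinEquiv.symm q with i | l
      · simp only [Sum.elim_inl]
        rw [← hidx, P.ord_div (hT _ _) (hT _ _), hall (idx i) (a (idx i)) (a' (idx i)), sub_self]
      · simp only [Sum.elim_inr]
        rw [hujj, P.ord_div (hjj l) hi0', hcst _ _ (hjj l) hi0', sub_self]
    · obtain ⟨D, hD⟩ := exists_dual hx
      have hf : ∀ c, form x (max 1 (wt m)) (g c) D = g c := fun c => by
        unfold form
        rw [hD, Matrix.det_one, one_pow, mul_one]
      refine ⟨D, by change form x (max 1 (wt m)) (g (cc 0)) D ≠ 0; rw [hf]; exact hg0 _, ?_⟩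
      have h1 : ∀ q : Fin h, g (cc q.succ) / g (cc 0) = t q := by
        intro q
        have h2 := hg (cc q.succ) (cc 0)
        have h3 : ∏ i, T i (cc q.succ i) = (∏ i, T i (cc 0 i)) * t q := by
          change ∏ i, T i (Function.update a' (idx q) (a (idx q)) i) = (∏ i, T i (a' i)) * t q
          rw [← Finset.mul_prod_erase Finset.univ _ (Finset.mem_univ (idx q)),
            ← Finset.mul_prod_erase Finset.univ (fun i => T i (a' i)) (Finset.mem_univ (idx q))]
          have h4 : ∏ i ∈ Finset.univ.erase (idx q),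
              T i (Function.update a' (idx q) (a (idx q)) i) =
              ∏ i ∈ Finset.univ.erase (idx q), T i (a' i) := by
            refine Finset.prod_congr rfl fun i hi => ?_
            rw [Function.update_of_ne (Finset.ne_of_mem_erase hi)]
          rw [h4, Function.update_self, ← hidx q]
          have h5 := hT (idx q) (a' (idx q))
          simp only [tt]
          field_simp
        rw [h3] at h2
        have h4 : ∏ i, T i (cc 0 i) ≠ 0 := Finset.prod_ne_zero_iff.2 fun i _ => hT _ _
        have h5 := hg0 (cc 0)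
        rw [div_eq_iff h5]
        apply mul_right_cancel₀ h4
        rw [h2]
        ring
      simp only [hf, h1]
      exact hbasis.1.comp Sum.inl Sum.inl_injective
  · have := hle _ hk
    omega

/-- **The logarithmic Kodaira dimension, final form.** -/
theorem kod_wide_final [CharZero k] [IsAlgClosed k] {U : Set (Fin (n + 1))}
    {F : ι → MvPolynomial (Fin (n + 1)) k} {s N : ℕ} (hF : ∀ e, IsForm (F e))
    (hcard : ∀ e, (F e).support.card ≤ s) (hW : WideK U F N)
    (hN : n * ((s + 1) * ((s - 1) * (s - 2) / 2)) ≤ N) {K : Type} [Field K] [Algebra k K] {w : ℕ}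
    {y : Fin (n + 1) → K} (hy : SubVarU U F K w y) (hcomp : IsComponentU U F y) :
    (¬ KodGe k K w (OffU U y) 0 ↔ ∃ b, Contracts U k y b) ∧
    (KodGe k K w (OffU U y) 0 → ∃ (h p : ℕ) (b : Fin p → Fin (n + 1) → ℤ), h + p = w ∧
      (∀ l, Acts U k y (b l)) ∧
      (∀ c : Fin p → ℤ, (∀ j j', y j ≠ 0 → y j' ≠ 0 →
        ∑ l, c l * b l j = ∑ l, c l * b l j') → c = 0) ∧
      KodGe k K w (OffU U y) h ∧ ¬ KodGe k K w (OffU U y) (h + 1)) := by
  have h : tn (s - 1) = (s - 1) * (s - 2) / 2 := by
    unfold tn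
    rw [Fin.sum_univ_eq_sum_range (fun i => i), Finset.sum_range_id, Nat.sub_sub]
  have h1 := kod_wide hF hcard hW (by rw [h]; exact hN) hy hcomp
  refine ⟨⟨fun h0 => ?_, ?_⟩, fun h0 => ?_⟩
  · rcases h1 with h | ⟨h, p, b, -, -, -, hk, -⟩
    · exact h
    · exact absurd hk.zero h0
  · rintro ⟨b, hb⟩
    exact kod_neg hy.unit hy.gen hy.dim hb
  · rcases h1 with ⟨b, hb⟩ | h
    · exact absurd h0 (kod_neg hy.unit hy.gen hy.dim hb)
    · exact h

end Pool.Agent.J4.H93.WK
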