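import Pool.Agent.J4.H93.WS.WS1

/-!
Positive solutions of the linear systems given by the differences of the shapes of monomials: they
persist near generic shapes.
-/

set_option autoImplicit false

namespace Pool.Agent.J4.H93.WK

open Finset Pool.Agent.R869.Wd Pool.Agent.J4.H93.WS

variable {n s : ℕ}

/-- the coordinates of the shape of a monomial -/
def vt (z : Fin s → Fin (n + 1) → ℝ) (p : Fin s ⊕ Fin (n + 1)) (j : Fin (n + 1)) : ℝ :=
  Sum.elim (fun i => z i j) (fun l => if l = j then 1 else 0) p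

/-- the differences -/
def rw' (z : Fin s → Fin (n + 1) → ℝ) (p q : Fin s ⊕ Fin (n + 1)) (j : Fin (n + 1)) : ℝ :=
  vt z p j - vt z q j

theorem vt_castSucc (z : Fin s → Fin (n + 1) → ℝ) (p : Fin s ⊕ Fin (n + 1)) (j : Fin n) :
    vt z p j.castSucc = vz z p j := rfl

theorem vt_sum {I : Fin s → Finset (Fin (n + 1))} {z : Fin s → Fin (n + 1) → ℝ} (hz : Adm I z)
    (p : Fin s ⊕ Fin (n + 1)) : ∑ j, vt z p j = 1 := by
  rcases p with i | l
  · exact (hz i).2
  · show ∑ j, (if l = j then (1 : ℝ) else 0) = 1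
    simp

theorem rw_sum {I : Fin s → Finset (Fin (n + 1))} {z : Fin s → Fin (n + 1) → ℝ} (hz : Adm I z)
    (p q : Fin s ⊕ Fin (n + 1)) : ∑ j, rw' z p q j = 0 := by
  unfold rw'
  rw [sum_sub_distrib, vt_sum hz, vt_sum hz, sub_self]

/-- **Transfer of linear independence.** -/
theorem transfer {I : Fin s → Finset (Fin (n + 1))} {z₀ : Fin s → Fin (n + 1) → ℝ}
    (hg : GenericShape I z₀) {z : Fin s → Fin (n + 1) → ℝ} (hz : Adm I z) {Λ : Type} [Finite Λ]
    (p q : Λ → Fin s ⊕ Fin (n + 1))
    (h : LinearIndependent ℝ fun l => fun j : Fin n => rw' z (p l) (q l) j.castSucc) :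
    LinearIndependent ℝ fun l => fun j : Fin n => rw' z₀ (p l) (q l) j.castSucc := by
  classical
  -- all the vectors
  let P : Λ ⊕ Fin n → Fin s ⊕ Fin (n + 1) := Sum.elim p fun j => Sum.inr j.castSucc
  let Q : Λ ⊕ Fin n → Fin s ⊕ Fin (n + 1) := Sum.elim q fun _ => Sum.inr (Fin.last n)
  obtain ⟨W, hW⟩ : ∃ W : (Fin s → Fin (n + 1) → ℝ) → Λ ⊕ Fin n → (Fin n → ℝ), W = fun z m j =>
    rw' z (P m) (Q m) j.castSucc := ⟨_, rfl⟩
  have hWr : ∀ z j, W z (Sum.inr j) = Pi.single j 1 := by
    intro z j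
    funext i
    rw [hW]
    show vt z (Sum.inr j.castSucc) i.castSucc - vt z (Sum.inr (Fin.last n)) i.castSucc = _
    show (if j.castSucc = i.castSucc then (1 : ℝ) else 0) - (if Fin.last n = i.castSucc then 1 else 0) = _
    rw [if_neg (Fin.castSucc_lt_last i).ne', sub_zero, Pi.single_apply]
    by_cases hij : i = j
    · rw [if_pos hij, if_pos (by rw [hij])]
    · rw [if_neg hij, if_neg]
      intro h1
      exact hij (Fin.castSucc_injective n h1).symm
  have hs : LinearIndepOn ℝ (W z) (Set.range (Sum.inl : Λ → Λ ⊕ Fin n)) := by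
    rw [linearIndepOn_range_iff Sum.inl_injective, hW]
    exact h
  obtain ⟨e, -, hsub, h1, he⟩ := exists_linearIndepOn_extension hs (Set.subset_univ _)
  have hspan : ⊤ ≤ Submodule.span ℝ (Set.range fun x : e => W z x) := by
    have h2 : (Set.range fun x : e => W z x) = W z '' e := by
      ext x
      simp
    rw [h2, ← (Pi.basisFun ℝ (Fin n)).span_eq, Submodule.span_le]
    rintro _ ⟨j, rfl⟩
    rw [Pi.basisFun_apply, ← hWr z j]
    exact h1 ⟨_, Set.mem_univ _, rfl⟩
  have hli : LinearIndependent ℝ (fun x : e => W z x) := he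
  obtain ⟨ψ⟩ : Nonempty (Fin n ≃ e) := by
    have B : Module.Basis e ℝ (Fin n → ℝ) := Module.Basis.mk hli hspan
    exact ⟨(Pi.basisFun ℝ (Fin n)).indexEquiv B⟩
  have hdet : (dz (fun l => P (ψ l)) (fun l => Q (ψ l)) z).det ≠ 0 := by
    have h1 : LinearIndependent ℝ fun l => (dz (fun l => P (ψ l)) (fun l => Q (ψ l)) z).row l := by
      have h2 := hli.comp ψ ψ.injective
      rw [hW] at h2
      exact h2
    have h2 := Matrix.linearIndependent_rows_iff_isUnit.1 h1
    exact ((Matrix.isUnit_iff_isUnit_det _).1 h2).ne_zero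
  have hdet₀ := hg.gen _ _ ⟨z, hz, hdet⟩
  have h3 : LinearIndependent ℝ fun l => (dz (fun l => P (ψ l)) (fun l => Q (ψ l)) z₀).row l :=
    Matrix.linearIndependent_rows_iff_isUnit.2
      ((Matrix.isUnit_iff_isUnit_det _).2 (isUnit_iff_ne_zero.2 hdet₀))
  have h4 : LinearIndependent ℝ (fun x : e => W z₀ x) := by
    have h5 := h3.comp ψ.symm ψ.symm.injective
    have h6 : ((fun l => (dz (fun l => P (ψ l)) (fun l => Q (ψ l)) z₀).row l) ∘ ψ.symm) =
        fun x : e => W z₀ x := by
      funext x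
      show (fun j => vz z₀ (P (ψ (ψ.symm x))) j - vz z₀ (Q (ψ (ψ.symm x))) j) = _
      rw [Equiv.apply_symm_apply, hW]
      rfl
    rwa [h6] at h5
  have h7 := h4.comp (fun l : Λ => (⟨Sum.inl l, hsub ⟨l, rfl⟩⟩ : e)) fun l l' hll => by
    have := congrArg Subtype.val hll
    exact Sum.inl_injective this
  rw [hW] at h7
  exact h7

theorem ind_of_restrict {I : Fin s → Finset (Fin (n + 1))} {z : Fin s → Fin (n + 1) → ℝ}
    (hz : Adm I z) {S : Finset (Fin (n + 1))} {j0 : Fin (n + 1)} (hj0 : j0 ∉ S) {Λ : Type}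
    [Fintype Λ] (p q : Λ → Fin s ⊕ Fin (n + 1)) :
    (LinearIndependent ℝ fun l => fun j : S => rw' z (p l) (q l) j) ↔
      LinearIndependent ℝ fun (l : Λ ⊕ {j : Fin (n + 1) // j ∉ S ∧ j ≠ j0}) => fun j : Fin n =>
        rw' z (Sum.elim p (fun j => Sum.inr j.1) l) (Sum.elim q (fun _ => Sum.inr j0) l)
          j.castSucc := by
  classical
  have key : ∀ (x : Fin (n + 1) → ℝ), ∑ j, x j = 0 → (∀ j : Fin n, x j.castSucc = 0) → x = 0 := by
    intro x h1 h2
    rw [Fin.sum_univ_castSucc, sum_eq_zero fun j _ => h2 j, zero_add] at h1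
    funext j
    refine Fin.lastCases ?_ (fun j => ?_) j
    · exact h1
    · exact h2 j
  have hsum1 : ∀ (c : Λ → ℝ) (d : {j : Fin (n + 1) // j ∉ S ∧ j ≠ j0} → ℝ),
      ∑ i, (∑ l, c l * rw' z (p l) (q l) i +
        ∑ j : {j : Fin (n + 1) // j ∉ S ∧ j ≠ j0}, d j * rw' z (Sum.inr j.1) (Sum.inr j0) i) = 0 := by
    intro c d
    rw [sum_add_distrib, sum_comm, sum_comm (s := univ) (t := univ)
      (f := fun i (j : {j : Fin (n + 1) // j ∉ S ∧ j ≠ j0}) => d j * rw' z (Sum.inr j.1) (Sum.inr j0) i)]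
    rw [sum_eq_zero fun l _ => by rw [← mul_sum, rw_sum hz, mul_zero], sum_eq_zero fun l _ => by
      rw [← mul_sum, rw_sum hz, mul_zero], add_zero]
  have hval : ∀ (j : {j : Fin (n + 1) // j ∉ S ∧ j ≠ j0}) (i : Fin (n + 1)),
      rw' z (Sum.inr j.1) (Sum.inr j0) i = (if j.1 = i then 1 else 0) - (if j0 = i then 1 else 0) :=
    fun j i => rfl
  rw [Fintype.linearIndependent_iff, Fintype.linearIndependent_iff]
  constructor
  · intro h g hg
    have hx : (fun i => ∑ l, g (Sum.inl l) * rw' z (p l) (q l) i +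
        ∑ j : {j : Fin (n + 1) // j ∉ S ∧ j ≠ j0}, g (Sum.inr j) * rw' z (Sum.inr j.1) (Sum.inr j0) i) = 0 := by
      apply key _ (hsum1 _ _)
      intro j
      have h1 := congrFun hg j
      rw [Finset.sum_apply, Fintype.sum_sum_type] at h1
      simpa only [Pi.smul_apply, smul_eq_mul, Sum.elim_inl, Sum.elim_inr, Pi.zero_apply] using h1
    have hc : ∀ l, g (Sum.inl l) = 0 := by
      apply h (fun l => g (Sum.inl l))
      funext j
      rw [Finset.sum_apply]
      simp only [Pi.smul_apply, smul_eq_mul, Pi.zero_apply]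
      have h1 := congrFun hx j.1
      simp only [Pi.zero_apply] at h1
      rw [sum_eq_zero (s := (univ : Finset {j : Fin (n + 1) // j ∉ S ∧ j ≠ j0})) (fun i _ => by
        rw [hval, if_neg, if_neg, sub_self, mul_zero]
        · intro h2
          exact hj0 (h2 ▸ j.2)
        · intro h2
          exact i.2.1 (h2 ▸ j.2)), add_zero] at h1
      exact h1
    intro m
    rcases m with l | j
    · exact hc l
    · have h1 := congrFun hx j.1
      simp only [Pi.zero_apply] at h1
      rw [sum_eq_zero (s := (univ : Finset Λ)) (fun l _ => by rw [hc, zero_mul]), zero_add,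
        sum_eq_single j] at h1
      · rw [hval, if_pos rfl, if_neg (Ne.symm j.2.2), sub_zero, mul_one] at h1
        exact h1
      · intro i _ hi
        rw [hval, if_neg (fun h2 => hi (Subtype.ext h2)), if_neg (Ne.symm j.2.2), sub_self, mul_zero]
      · intro h2
        exact absurd (mem_univ _) h2
  · intro h c hc
    have h0 : ∀ j ∈ S, ∑ l, c l * rw' z (p l) (q l) j = 0 := by
      intro j hj
      have h1 := congrFun hc ⟨j, hj⟩
      rw [Finset.sum_apply] at h1
      simpa only [Pi.smul_apply, smul_eq_mul, Pi.zero_apply] using h1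
    obtain ⟨x, hx⟩ : ∃ x : Fin (n + 1) → ℝ, x = fun i => ∑ l, c l * rw' z (p l) (q l) i := ⟨_, rfl⟩
    have hxs : ∑ i, x i = 0 := by
      rw [hx, sum_comm]
      exact sum_eq_zero fun l _ => by rw [← mul_sum, rw_sum hz, mul_zero]
    have hz2 : (fun i => x i - ∑ j : {j : Fin (n + 1) // j ∉ S ∧ j ≠ j0},
        x j.1 * rw' z (Sum.inr j.1) (Sum.inr j0) i) = 0 := by
      funext i
      simp only [Pi.zero_apply]
      by_cases hi : i ∈ S
      · rw [hx]
        simp only
        rw [h0 i hi, zero_sub, neg_eq_zero]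
        refine sum_eq_zero fun j _ => ?_
        rw [hval, if_neg, if_neg, sub_self, mul_zero]
        · intro h2
          exact hj0 (h2 ▸ hi)
        · intro h2
          exact j.2.1 (h2 ▸ hi)
      · by_cases hi0 : i = j0
        · subst hi0
          have h1 : ∑ j : {j : Fin (n + 1) // j ∉ S ∧ j ≠ i}, x j.1 * rw' z (Sum.inr j.1) (Sum.inr i) i =
              - ∑ j : {j : Fin (n + 1) // j ∉ S ∧ j ≠ i}, x j.1 := by
            rw [← sum_neg_distrib]
            refine sum_congr rfl fun j _ => ?_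
            rw [hval, if_neg j.2.2, if_pos rfl]
            ring
          rw [h1, sub_neg_eq_add]
          have h2 : ∑ j, x j = x i + ∑ j : {j : Fin (n + 1) // j ∉ S ∧ j ≠ i}, x j.1 := by
            rw [← add_sum_erase _ _ (mem_univ i)]
            congr 1
            rw [← sum_subtype (univ.filter fun j => j ∉ S ∧ j ≠ i) (by simp)]
            symm
            refine sum_subset (fun j hj => ?_) fun j hj hj2 => ?_
            · exact mem_erase.2 ⟨(mem_filter.1 hj).2.2, mem_univ _⟩
            · have hjS : j ∈ S := by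
                by_contra hjS
                exact hj2 (mem_filter.2 ⟨mem_univ _, hjS, (mem_erase.1 hj).1⟩)
              rw [hx]
              exact h0 j hjS
          rw [← h2, hxs]
        · rw [sum_eq_single ⟨i, hi, hi0⟩]
          · rw [hval, if_pos rfl, if_neg (Ne.symm hi0)]
            ring
          · intro j _ hj
            rw [hval, if_neg (fun h2 => hj (Subtype.ext h2)), if_neg (Ne.symm hi0), sub_self, mul_zero]
          · intro h2
            exact absurd (mem_univ _) h2
    have h5 := h (Sum.elim c fun j => - x j.1) (by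
      funext j
      rw [Finset.sum_apply, Fintype.sum_sum_type]
      simp only [Pi.smul_apply, smul_eq_mul, Sum.elim_inl, Sum.elim_inr, Pi.zero_apply]
      have h1 := congrFun hz2 j.castSucc
      simp only [Pi.zero_apply] at h1
      rw [hx] at h1
      simp only at h1
      rw [← h1, sub_eq_add_neg, ← sum_neg_distrib, hx]
      simp only [neg_mul])
    intro l
    exact h5 (Sum.inl l)

end Pool.Agent.J4.H93.WK
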