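import Pool.Agent.J4.H93.WK.WK3

/-!
Positive solutions persist near generic shapes.
-/

set_option autoImplicit false

namespace Pool.Agent.J4.H93.WK

open Finset Pool.Agent.R869.Wd Pool.Agent.J4.H93.WS Matrix

variable {n s : ℕ}

theorem continuous_rw (p q : Fin s ⊕ Fin (n + 1)) (j : Fin (n + 1)) :
    Continuous fun z : Fin s → Fin (n + 1) → ℝ => rw' z p q j := by
  have h : ∀ p : Fin s ⊕ Fin (n + 1), Continuous fun z : Fin s → Fin (n + 1) → ℝ => vt z p j := by
    rintro (i | l)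
    · show Continuous fun z : Fin s → Fin (n + 1) → ℝ => z i j
      exact (continuous_apply _).comp (continuous_apply _)
    · exact continuous_const
  exact (h p).sub (h q)

/-- **Persistence of positive solutions.** -/
theorem perturb {I : Fin s → Finset (Fin (n + 1))} {z₀ : Fin s → Fin (n + 1) → ℝ}
    (hg : GenericShape I z₀) {r : ℕ} (p q : Fin r → Fin s ⊕ Fin (n + 1)) {v : Fin (n + 1) → ℝ}
    {S : Finset (Fin (n + 1))} {j0 : Fin (n + 1)} (hj0 : j0 ∉ S) (hS : ∀ j ∈ S, 0 < v j)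
    (hS' : ∀ j, j ∉ S → v j = 0) (hv : ∀ l, ∑ j, rw' z₀ (p l) (q l) j * v j = 0) :
    ∃ ε : ℝ, 0 < ε ∧ ∀ z, Adm I z → (∀ i j, |z i j - z₀ i j| ≤ ε) → ∃ x : Fin (n + 1) → ℝ,
      (∀ j ∈ S, 0 < x j) ∧ (∀ j, j ∉ S → x j = 0) ∧ ∀ l, ∑ j, rw' z (p l) (q l) j * x j = 0 := by
  classical
  obtain ⟨R, hR⟩ : ∃ R : (Fin s → Fin (n + 1) → ℝ) → Fin r → (S → ℝ), R = fun z l j =>
    rw' z (p l) (q l) j.1 := ⟨_, rfl⟩
  obtain ⟨κ, a, ha, hspan, hli⟩ := exists_linearIndependent' ℝ (R z₀)
  have hκ : Finite κ := Finite.of_injective a ha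
  have := Fintype.ofFinite κ
  obtain ⟨A, hA⟩ : ∃ A : (Fin s → Fin (n + 1) → ℝ) → Matrix κ S ℝ, A = fun z =>
    Matrix.of fun k j => R z (a k) j := ⟨_, rfl⟩
  have hAR : ∀ z k j, A z k j = rw' z (p (a k)) (q (a k)) j.1 := by
    intro z k j
    rw [hA, hR]
    rfl
  have hAc : Continuous A := by
    rw [hA]
    apply continuous_matrix
    intro k j
    simp only [Matrix.of_apply, hR]
    exact continuous_rw _ _ _
  have hsurj : Function.Surjective (A z₀).mulVecLin := by
    rw [← LinearMap.range_eq_top]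
    apply Submodule.eq_top_of_finrank_eq
    have h1 : (A z₀).rank = Fintype.card κ := by
      apply LinearIndependent.rank_matrix
      rw [hA]
      exact hli
    rw [Module.finrank_fintype_fun_eq_card, ← h1]
    rfl
  obtain ⟨B, hB⟩ := LinearMap.exists_rightInverse_of_surjective _ (LinearMap.range_eq_top.2 hsurj)
  obtain ⟨Bm, hBm⟩ : ∃ Bm : Matrix S κ ℝ, Bm = LinearMap.toMatrix' B := ⟨_, rfl⟩
  have hBB : ∀ y, Bm *ᵥ y = B y := by
    intro y
    rw [hBm, LinearMap.toMatrix'_mulVec]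
  have hC0 : A z₀ * Bm = 1 := by
    apply Matrix.mulVec_injective
    funext y
    rw [← Matrix.mulVec_mulVec, hBB, Matrix.one_mulVec]
    exact LinearMap.congr_fun hB y
  obtain ⟨C, hC⟩ : ∃ C : (Fin s → Fin (n + 1) → ℝ) → Matrix κ κ ℝ, C = fun z => A z * Bm := ⟨_, rfl⟩
  have hCc : Continuous C := by
    rw [hC]
    exact hAc.matrix_mul continuous_const
  have hdetc : Continuous fun z => (C z).det := hCc.matrix_det
  have hdet0 : (C z₀).det = 1 := by
    rw [hC]
    simp only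
    rw [hC0, Matrix.det_one]
  obtain ⟨vS, hvS⟩ : ∃ vS : S → ℝ, vS = fun j => v j.1 := ⟨_, rfl⟩
  have hAv : A z₀ *ᵥ vS = 0 := by
    funext k
    show ∑ j : S, A z₀ k j * vS j = 0
    have h1 := hv (a k)
    rw [← h1, ← sum_subset (subset_univ S) fun j _ hj => by rw [hS' j hj, mul_zero],
      ← sum_coe_sort S]
    refine sum_congr rfl fun j _ => ?_
    rw [hAR, hvS]
  obtain ⟨X, hX⟩ : ∃ X : (Fin s → Fin (n + 1) → ℝ) → (S → ℝ), X = fun z =>
    vS - Bm *ᵥ ((C z).det⁻¹ • ((C z).adjugate *ᵥ (A z *ᵥ vS))) := ⟨_, rfl⟩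
  have hX0 : X z₀ = vS := by
    rw [hX]
    simp only
    rw [hAv, Matrix.mulVec_zero, smul_zero, Matrix.mulVec_zero, sub_zero]
  have hXc : ContinuousAt X z₀ := by
    rw [hX]
    refine continuousAt_const.sub ?_
    have h1 : ContinuousAt (fun z => (C z).det⁻¹ • ((C z).adjugate *ᵥ (A z *ᵥ vS))) z₀ := by
      refine ContinuousAt.smul (hdetc.continuousAt.inv₀ (by rw [hdet0]; exact one_ne_zero)) ?_
      exact (hCc.matrix_adjugate.matrix_mulVec (hAc.matrix_mulVec continuous_const)).continuousAt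
    exact (Continuous.matrix_mulVec (A := fun _ : κ → ℝ => Bm) continuous_const
      continuous_id).continuousAt.comp h1
  -- the neighbourhood
  have hev : ∀ᶠ z in nhds z₀, (C z).det ≠ 0 ∧ ∀ j : S, 0 < X z j := by
    refine Filter.Eventually.and ?_ ?_
    · exact hdetc.continuousAt.eventually_ne (by rw [hdet0]; exact one_ne_zero)
    · rw [Filter.eventually_all]
      intro j
      have h1 : ContinuousAt (fun z => X z j) z₀ := (continuous_apply j).continuousAt.comp hXc
      refine h1.eventually_const_lt ?_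
      show 0 < X z₀ j
      rw [hX0, hvS]
      exact hS _ j.2
  obtain ⟨ε, hε, hball⟩ := Metric.eventually_nhds_iff.1 hev
  refine ⟨ε / 2, by positivity, fun z hz hzz => ?_⟩
  obtain ⟨hdz, hpos⟩ := hball (y := z) (by
    refine lt_of_le_of_lt (b := ε / 2) ?_ (by linarith)
    rw [dist_pi_le_iff (by positivity)]
    intro i
    rw [dist_pi_le_iff (by positivity)]
    intro j
    rw [Real.dist_eq]
    exact hzz i j)
  -- the rows of the basis
  have hAX : A z *ᵥ X z = 0 := by
    rw [hX]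
    simp only
    rw [Matrix.mulVec_sub, Matrix.mulVec_mulVec]
    have h1 : A z * Bm = C z := by rw [hC]
    rw [h1, Matrix.mulVec_smul, Matrix.mulVec_mulVec, Matrix.mul_adjugate, Matrix.smul_mulVec,
      Matrix.one_mulVec, smul_smul, inv_mul_cancel₀ hdz, one_smul, sub_self]
  have hind : LinearIndependent ℝ (fun k => R z (a k)) := by
    rw [Fintype.linearIndependent_iff]
    intro g hg
    have h1 : g ᵥ* A z = 0 := by
      funext j
      have h2 := congrFun hg j
      rw [Finset.sum_apply] at h2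
      refine Eq.trans (b := ∑ k, (g k • fun j => R z (a k) j) j) ?_ h2
      show ∑ k, g k * A z k j = _
      refine sum_congr rfl fun k _ => ?_
      rw [hAR, Pi.smul_apply, smul_eq_mul, hR]
    have h2 : g ᵥ* C z = 0 := by
      rw [hC]
      simp only
      rw [← Matrix.vecMul_vecMul, h1, Matrix.zero_vecMul]
    exact fun i => congrFun (Matrix.eq_zero_of_vecMul_eq_zero hdz h2) i
  -- the other rows
  have hrows : ∀ l, R z l ∈ Submodule.span ℝ (Set.range fun k => R z (a k)) := by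
    intro l
    by_contra hcon
    have h1 : LinearIndependent ℝ (fun o => Option.casesOn' o (R z l) (fun k => R z (a k)) :
        Option κ → (S → ℝ)) := linearIndependent_option'.2 ⟨hind, hcon⟩
    let p' : Option κ → Fin s ⊕ Fin (n + 1) := fun o => Option.casesOn' o (p l) fun k => p (a k)
    let q' : Option κ → Fin s ⊕ Fin (n + 1) := fun o => Option.casesOn' o (q l) fun k => q (a k)
    have h2 : ∀ z, (fun o => Option.casesOn' o (R z l) (fun k => R z (a k)) : Option κ → (S → ℝ)) =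
        fun o => fun j : S => rw' z (p' o) (q' o) j := by
      intro z
      funext o j
      rcases o with _ | k
      · show R z l j = rw' z (p l) (q l) j
        rw [hR]
      · show R z (a k) j = rw' z (p (a k)) (q (a k)) j
        rw [hR]
    rw [h2, ind_of_restrict hz hj0] at h1
    have h3 := transfer hg hz _ _ h1
    rw [← ind_of_restrict hg.adm hj0, ← h2] at h3
    have h4 := (linearIndependent_option'.1 h3).2
    apply h4
    have h5 : (Set.range fun k => R z₀ (a k)) = Set.range (R z₀ ∘ a) := rfl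
    rw [h5, hspan]
    exact Submodule.subset_span ⟨l, rfl⟩
  have horth : ∀ l, ∑ j, R z l j * X z j = 0 := by
    intro l
    refine Submodule.span_induction (p := fun y _ => ∑ j, y j * X z j = 0) ?_ ?_ ?_ ?_ (hrows l)
    · rintro _ ⟨k, rfl⟩
      have h1 := congrFun hAX k
      show ∑ j, R z (a k) j * X z j = 0
      rw [Pi.zero_apply] at h1
      rw [← h1]
      show _ = ∑ j, A z k j * X z j
      refine sum_congr rfl fun j _ => ?_
      rw [hAR, hR]
    · simp
    · intro y y' _ _ hy hy'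
      simp only [Pi.add_apply, add_mul, sum_add_distrib]
      rw [hy, hy', add_zero]
    · intro c y _ hy
      simp only [Pi.smul_apply, smul_eq_mul, mul_assoc, ← mul_sum]
      rw [hy, mul_zero]
  refine ⟨fun j => if h : j ∈ S then X z ⟨j, h⟩ else 0, fun j hj => ?_, fun j hj => ?_, fun l => ?_⟩
  · simp only
    rw [dif_pos hj]
    exact hpos _
  · simp only
    rw [dif_neg hj]
  · refine Eq.trans ?_ (horth l)
    rw [← sum_subset (subset_univ S) fun j _ hj => by
      show rw' z (p l) (q l) j * (if h : j ∈ S then X z ⟨j, h⟩ else 0) = 0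
      rw [dif_neg hj, mul_zero], ← sum_coe_sort S]
    refine sum_congr rfl fun j _ => ?_
    show rw' z (p l) (q l) j * (if h : j.1 ∈ S then X z ⟨j.1, h⟩ else 0) = _
    rw [dif_pos j.2, hR]

/-- **Rational approximations.** -/
theorem rat_approx {m : ℕ} (x : Fin m → ℝ) {ε : ℝ} (hε : 0 < ε) : ∃ x' : Fin m → ℚ,
    (∀ j, |(x' j : ℝ) - x j| < ε) ∧ ∀ c : Fin m → ℤ, ∑ j, (c j : ℝ) * x j = 0 →
      ∑ j, (c j : ℚ) * x' j = 0 := by
  classical
  let E : Submodule ℚ ℝ := Submodule.span ℚ (Set.range x)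
  have hE : Module.Finite ℚ E := Module.Finite.span_of_finite ℚ (Set.finite_range x)
  let ω := Module.finBasis ℚ E
  obtain ⟨xE, hxE⟩ : ∃ xE : Fin m → E, xE = fun j => ⟨x j, Submodule.subset_span ⟨j, rfl⟩⟩ := ⟨_, rfl⟩
  have hxEv : ∀ j, ((xE j : E) : ℝ) = x j := fun j => by rw [hxE]
  obtain ⟨Q, hQ⟩ : ∃ Q : ℝ, Q = 1 + ∑ j, ∑ i, |((ω.repr (xE j) i : ℚ) : ℝ)| := ⟨_, rfl⟩
  have hQ0 : 0 < Q := by
    rw [hQ]
    have : 0 ≤ ∑ j, ∑ i, |((ω.repr (xE j) i : ℚ) : ℝ)| :=
      sum_nonneg fun j _ => sum_nonneg fun i _ => abs_nonneg _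
    linarith
  have happ : ∀ i, ∃ q : ℚ, |(q : ℝ) - (ω i : ℝ)| < ε / Q := by
    intro i
    obtain ⟨q, hq1, hq2⟩ := exists_rat_btwn (show (ω i : ℝ) < (ω i : ℝ) + ε / Q by
      have : 0 < ε / Q := by positivity
      linarith)
    refine ⟨q, ?_⟩
    rw [abs_lt]
    constructor
    · have : 0 < ε / Q := by positivity
      linarith
    · linarith
  choose q hq using happ
  let φ : E →ₗ[ℚ] ℚ := ω.constr ℚ q
  have hφ : ∀ i, φ (ω i) = q i := fun i => ω.constr_basis ℚ q i
  refine ⟨fun j => φ (xE j), fun j => ?_, fun c hc => ?_⟩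
  · have h1 : xE j = ∑ i, ω.repr (xE j) i • ω i := (ω.sum_repr _).symm
    have h2 : (φ (xE j) : ℝ) = ∑ i, ((ω.repr (xE j) i : ℚ) : ℝ) * (q i : ℝ) := by
      conv_lhs => rw [h1]
      rw [map_sum]
      push_cast
      refine sum_congr rfl fun i _ => ?_
      rw [map_smul, hφ, smul_eq_mul]
      push_cast
      rfl
    have h3 : x j = ∑ i, ((ω.repr (xE j) i : ℚ) : ℝ) * ((ω i : E) : ℝ) := by
      have h4 := congrArg (fun e : E => (e : ℝ)) h1
      rw [← hxEv j, h4, Submodule.coe_sum]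
      refine sum_congr rfl fun i _ => ?_
      rw [Submodule.coe_smul, Rat.smul_def]
    have h5 : (φ (xE j) : ℝ) - x j = ∑ i, ((ω.repr (xE j) i : ℚ) : ℝ) * ((q i : ℝ) - ((ω i : E) : ℝ)) := by
      rw [h2, h3, ← sum_sub_distrib]
      exact sum_congr rfl fun i _ => by ring
    simp only
    rw [h5]
    have h6 : |∑ i, ((ω.repr (xE j) i : ℚ) : ℝ) * ((q i : ℝ) - ((ω i : E) : ℝ))| ≤
        (∑ i, |((ω.repr (xE j) i : ℚ) : ℝ)|) * (ε / Q) := by
      refine (abs_sum_le_sum_abs _ _).trans ?_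
      rw [sum_mul]
      refine sum_le_sum fun i _ => ?_
      rw [abs_mul]
      exact mul_le_mul_of_nonneg_left (hq i).le (abs_nonneg _)
    have h7 : ∑ i, |((ω.repr (xE j) i : ℚ) : ℝ)| < Q := by
      rw [hQ]
      have := single_le_sum (f := fun j => ∑ i, |((ω.repr (xE j) i : ℚ) : ℝ)|)
        (fun j _ => sum_nonneg fun i _ => abs_nonneg _) (mem_univ j)
      linarith
    refine lt_of_le_of_lt h6 ?_
    have h8 : (∑ i, |((ω.repr (xE j) i : ℚ) : ℝ)|) * (ε / Q) < Q * (ε / Q) :=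
      mul_lt_mul_of_pos_right h7 (by positivity)
    rwa [mul_div_cancel₀ _ hQ0.ne'] at h8
  · have h1 : ∑ j, (c j : ℚ) • xE j = 0 := by
      apply Subtype.ext
      rw [Submodule.coe_sum, Submodule.coe_zero, ← hc]
      refine sum_congr rfl fun j _ => ?_
      rw [Submodule.coe_smul, hxEv, Rat.smul_def]
      push_cast
      rfl
    have h2 := congrArg φ h1
    rw [map_sum, map_zero] at h2
    rw [← h2]
    refine sum_congr rfl fun j _ => ?_
    rw [map_smul, smul_eq_mul]

/-- **Integral positive solutions.** -/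
theorem int_sol {m : ℕ} {x : Fin m → ℝ} {S : Finset (Fin m)} (hS : ∀ j ∈ S, 0 < x j)
    (hS' : ∀ j, j ∉ S → x j = 0) : ∃ u : Fin m → ℤ, (∀ j ∈ S, 0 < u j) ∧ (∀ j, j ∉ S → u j = 0) ∧
      ∀ c : Fin m → ℤ, ∑ j, (c j : ℝ) * x j = 0 → ∑ j, c j * u j = 0 := by
  classical
  obtain ⟨μ, hμ0, hμ⟩ : ∃ μ : ℝ, 0 < μ ∧ ∀ j ∈ S, μ ≤ x j := by
    rcases S.eq_empty_or_nonempty with rfl | hne
    · exact ⟨1, one_pos, fun j hj => absurd hj (notMem_empty j)⟩
    · obtain ⟨j0, hj0, hmin⟩ := exists_min_image S x hne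
      exact ⟨x j0, hS j0 hj0, hmin⟩
  obtain ⟨x', hx1, hx2⟩ := rat_approx x hμ0
  obtain ⟨D, hD⟩ : ∃ D : ℕ, D = ∏ j, (x' j).den := ⟨_, rfl⟩
  have hD0 : 0 < D := by
    rw [hD]
    exact prod_pos fun j _ => (x' j).pos
  have hint : ∀ j, ∃ u : ℤ, (u : ℚ) = x' j * D := by
    intro j
    obtain ⟨m', hm'⟩ : (x' j).den ∣ D := by
      rw [hD]
      exact dvd_prod_of_mem _ (mem_univ j)
    refine ⟨(x' j).num * m', ?_⟩
    rw [hm']
    push_cast
    rw [← mul_assoc, Rat.mul_den_eq_num]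
  choose u hu using hint
  have hDq : (0 : ℚ) < D := by exact_mod_cast hD0
  refine ⟨u, fun j hj => ?_, fun j hj => ?_, fun c hc => ?_⟩
  · have h1 : (0 : ℝ) < x' j := by
      have h2 := abs_lt.1 (hx1 j)
      have h3 := hμ j hj
      linarith [h2.1]
    have h2 : (0 : ℚ) < x' j := by exact_mod_cast h1
    have h3 : (0 : ℚ) < u j := by
      rw [hu]
      positivity
    exact_mod_cast h3
  · have h1 := hx2 (Pi.single j 1) (by
      rw [sum_eq_single j]
      · rw [hS' j hj, mul_zero]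
      · intro i _ hi
        rw [Pi.single_eq_of_ne hi]
        simp
      · intro h
        exact absurd (mem_univ _) h)
    rw [sum_eq_single j (fun i _ hi => by rw [Pi.single_eq_of_ne hi]; simp) (fun h =>
      absurd (mem_univ _) h), Pi.single_eq_same] at h1
    have h2 : (u j : ℚ) = 0 := by
      rw [hu]
      simp only [Int.cast_one, one_mul] at h1
      rw [h1, zero_mul]
    exact_mod_cast h2
  · have h1 := hx2 c hc
    have h2 : ((∑ j, c j * u j : ℤ) : ℚ) = (∑ j, (c j : ℚ) * x' j) * D := by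
      push_cast
      rw [sum_mul]
      exact sum_congr rfl fun j _ => by rw [hu]; ring
    rw [h1, zero_mul] at h2
    exact_mod_cast h2

end Pool.Agent.J4.H93.WK
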