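import Pool.Agent.J4.H93.WK.WK4
import Pool.Agent.J4.H93.WK.WK2

/-!
All large tuples of monomials of generic shape are wide on the cones of the directions that are minimal
on a set of variables.
-/

set_option autoImplicit false

namespace Pool.Agent.J4.H93.WK

open Finset Pool.Agent.R869.Wd Pool.Agent.J4.H93.WS

variable {n s : ℕ}

/-- `WideK` for a set `T` of exponent vectors. -/
def WideTK (U : Set (Fin (n + 1))) (T : Finset (Fin (n + 1) →₀ ℕ)) (N : ℕ) : Prop :=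
  ∀ (J : Set (Fin (n + 1))) (r : ℕ) (α β : Fin r → (Fin (n + 1) →₀ ℕ)), U ⊆ J → r ≤ n →
    (∀ l, α l ∈ T ∧ β l ∈ T ∧ ∀ j, j ∉ J → α l j = 0 ∧ β l j = 0) →
    (∀ u : Fin (n + 1) → ℤ, (∃ i ∈ J, ∃ j ∈ J, u i ≠ u j) → (∀ i ∈ U, ∀ j ∈ J, u i ≤ u j) →
      0 < ∑ l, |wgt u (α l) - wgt u (β l)|) →
    ∀ u : Fin (n + 1) → ℤ, (∃ i ∈ J, ∃ j ∈ J, u i ≠ u j) → (∀ i ∈ U, ∀ j ∈ J, u i ≤ u j) →
      (N : ℤ) ≤ ∑ l, |wgt u (α l) - wgt u (β l)|

theorem WideTK.wide {U : Set (Fin (n + 1))} {T : Finset (Fin (n + 1) →₀ ℕ)} {N : ℕ}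
    (h : WideTK U T N) {k : Type} [Field k] {ι : Type} {F : ι → MvPolynomial (Fin (n + 1)) k}
    (hF : ∀ e, (F e).support ⊆ T) : WideK U F N := by
  intro J r e α β hU hr hm
  exact h J r α β hU hr fun l => ⟨hF _ (hm l).1, hF _ (hm l).2.1, (hm l).2.2⟩

theorem expo_vt {d : ℕ} (hd : 0 < d) (a : Fin s → (Fin (n + 1) →₀ ℕ)) (p : Fin s ⊕ Fin (n + 1))
    (j : Fin (n + 1)) : (expo d a p j : ℝ) = d * vt (sclI d a) p j := by
  have hd' : (d : ℝ) ≠ 0 := by exact_mod_cast hd.ne'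
  rcases p with i | l
  · show ((a i j : ℕ) : ℝ) = d * ((a i j : ℝ) / d)
    field_simp
  · show ((Finsupp.single l d j : ℕ) : ℝ) = d * (if l = j then 1 else 0)
    by_cases h : l = j
    · subst h
      simp
    · rw [Finsupp.single_eq_of_ne' h, if_neg h]
      simp

theorem expo_deg {d : ℕ} {I : Fin s → Finset (Fin (n + 1))} {a : Fin s → (Fin (n + 1) →₀ ℕ)}
    (ha : a ∈ TuplesIn I d) (p : Fin s ⊕ Fin (n + 1)) : ∑ j, expo d a p j = d := by
  rcases p with i | l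
  · exact (ha i).2
  · show ∑ j, Finsupp.single l d j = d
    rw [sum_eq_single l]
    · simp
    · intro j _ hj
      exact Finsupp.single_eq_of_ne hj
    · intro h
      exact absurd (mem_univ _) h

/-- the difference of weights -/
theorem wgt_real {d : ℕ} (hd : 0 < d) (a : Fin s → (Fin (n + 1) →₀ ℕ)) (p q : Fin s ⊕ Fin (n + 1))
    (u : Fin (n + 1) → ℤ) : ((wgt u (expo d a p) - wgt u (expo d a q) : ℤ) : ℝ) =
      d * ∑ j, rw' (sclI d a) p q j * u j := by
  unfold wgt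
  push_cast
  rw [← sum_sub_distrib, mul_sum]
  refine sum_congr rfl fun j _ => ?_
  rw [expo_vt hd, expo_vt hd]
  unfold rw'
  ring

/-- **One family of pairs.** -/
theorem local_wide {I : Fin s → Finset (Fin (n + 1))} {z₀ : Fin s → Fin (n + 1) → ℝ}
    (hg : GenericShape I z₀) (N : ℕ) (U J : Finset (Fin (n + 1))) {r : ℕ}
    (p q : Fin r → Fin s ⊕ Fin (n + 1)) {j0 : Fin (n + 1)} (hj0 : j0 ∈ J) :
    ∃ ε : ℝ, 0 < ε ∧ ∃ d₀ : ℕ, ∀ d : ℕ, d₀ ≤ d → 0 < d → ∀ a ∈ TuplesIn I d,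
      (∀ i j, |sclI d a i j - z₀ i j| ≤ ε) →
      (∀ l j, j ∉ J → expo d a (p l) j = 0 ∧ expo d a (q l) j = 0) →
      (∀ u : Fin (n + 1) → ℤ, (∃ i ∈ J, ∃ j ∈ J, u i ≠ u j) → (∀ i ∈ U, ∀ j ∈ J, u i ≤ u j) →
        0 < ∑ l, |wgt u (expo d a (p l)) - wgt u (expo d a (q l))|) →
      ∀ u : Fin (n + 1) → ℤ, (∃ i ∈ J, ∃ j ∈ J, u i ≠ u j) → (∀ i ∈ U, ∀ j ∈ J, u i ≤ u j) →
        (∀ j ∈ J, u j0 ≤ u j) → (N : ℤ) ≤ ∑ l, |wgt u (expo d a (p l)) - wgt u (expo d a (q l))| := by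
  classical
  obtain ⟨T, hT⟩ : ∃ T : Set (Fin (n + 1) → ℝ), T = {v | (∀ j, v j ∈ Set.Icc (0 : ℝ) 1) ∧
      (∀ j, j ∉ J → v j = 0) ∧ (∀ j ∈ U, v j = 0) ∧ v j0 = 0 ∧ 1 ≤ ∑ j, v j} := ⟨_, rfl⟩
  have hTc : IsCompact T := by
    have h1 : IsCompact (Set.pi Set.univ fun _ : Fin (n + 1) => Set.Icc (0 : ℝ) 1) :=
      isCompact_univ_pi fun _ => isCompact_Icc
    refine h1.of_isClosed_subset ?_ fun v hv => ?_
    · have h2 : T = (⋂ j, {v | v j ∈ Set.Icc (0 : ℝ) 1}) ∩ ((⋂ j, ⋂ _ : j ∉ J, {v | v j = 0}) ∩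
          ((⋂ j, ⋂ _ : j ∈ U, {v | v j = 0}) ∩ ({v | v j0 = 0} ∩ {v | 1 ≤ ∑ j, v j}))) := by
        rw [hT]
        ext v
        simp only [Set.mem_ofPred_eq, Set.mem_inter_iff, Set.mem_iInter]
      rw [h2]
      refine IsClosed.inter (isClosed_iInter fun j => isClosed_Icc.preimage (continuous_apply j)) ?_
      refine IsClosed.inter (isClosed_iInter fun j => isClosed_iInter fun _ =>
        isClosed_eq (continuous_apply j) continuous_const) ?_
      refine IsClosed.inter (isClosed_iInter fun j => isClosed_iInter fun _ =>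
        isClosed_eq (continuous_apply j) continuous_const) ?_
      exact (isClosed_eq (continuous_apply j0) continuous_const).inter
        (isClosed_le continuous_const (continuous_finsetSum _ fun j _ => continuous_apply j))
    · rw [hT] at hv
      exact fun j _ => hv.1 j
  obtain ⟨f, hf⟩ : ∃ f : (Fin s → Fin (n + 1) → ℝ) → (Fin (n + 1) → ℝ) → ℝ, f = fun z v =>
      ∑ l, |∑ j, rw' z (p l) (q l) j * v j| := ⟨_, rfl⟩
  by_cases hcase : ∃ v ∈ T, f z₀ v = 0
  · -- degenerate directions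
    obtain ⟨v, hvT, hv0⟩ := hcase
    rw [hT] at hvT
    obtain ⟨hv1, hv2, hv3, hv4, hv5⟩ := hvT
    obtain ⟨S, hS⟩ : ∃ S : Finset (Fin (n + 1)), S = univ.filter fun j => 0 < v j := ⟨_, rfl⟩
    have hSm : ∀ j, j ∈ S ↔ 0 < v j := fun j => by rw [hS]; simp
    have hj0S : j0 ∉ S := by
      rw [hSm, hv4]
      exact lt_irrefl 0
    obtain ⟨ε, hε, h⟩ := perturb hg p q hj0S (fun j hj => (hSm j).1 hj) (fun j hj =>
      le_antisymm (not_lt.1 fun h => hj ((hSm j).2 h)) (hv1 j).1) (by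
        intro l
        rw [hf] at hv0
        simp only at hv0
        exact abs_eq_zero.1 ((sum_eq_zero_iff_of_nonneg fun l _ => abs_nonneg _).1 hv0 l
          (mem_univ l)))
    refine ⟨ε, hε, 0, fun d _ hd a ha hclose _ hpos => ?_⟩
    exfalso
    obtain ⟨x, hx1, hx2, hx3⟩ := h _ (adm_scl hd ha) hclose
    obtain ⟨u, hu1, hu2, hu3⟩ := int_sol hx1 hx2
    obtain ⟨j1, hj1⟩ : S.Nonempty := by
      rw [nonempty_iff_ne_empty]
      intro hSe
      have h1 : ∑ j, v j = 0 := sum_eq_zero fun j _ => by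
        refine le_antisymm (not_lt.1 fun h => ?_) (hv1 j).1
        have h2 := (hSm j).2 h
        rw [hSe] at h2
        exact notMem_empty _ h2
      rw [h1] at hv5
      linarith
    have hj1J : j1 ∈ J := by
      by_contra h1
      have h2 := hv2 j1 h1
      have h3 := (hSm j1).1 hj1
      linarith
    have hnn : ∀ j, 0 ≤ u j := by
      intro j
      by_cases hj : j ∈ S
      · exact (hu1 j hj).le
      · exact (hu2 j hj).ge
    have hU0 : ∀ j ∈ U, u j = 0 := by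
      intro j hj
      apply hu2
      rw [hSm, hv3 j hj]
      exact lt_irrefl 0
    have h1 := hpos u ⟨j1, hj1J, j0, hj0, by
      rw [hu2 j0 hj0S]
      exact (hu1 j1 hj1).ne'⟩ (fun i hi j _ => by
        rw [hU0 i hi]
        exact hnn j)
    refine absurd h1 (not_lt.2 (le_of_eq (sum_eq_zero fun l _ => ?_)))
    rw [abs_eq_zero]
    have h2 := hu3 (fun j => (expo d a (p l) j : ℤ) - expo d a (q l) j) (by
      have h3 := hx3 l
      have h4 : ∑ j, (((expo d a (p l) j : ℤ) - expo d a (q l) j : ℤ) : ℝ) * x j =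
          d * ∑ j, rw' (sclI d a) (p l) (q l) j * x j := by
        rw [mul_sum]
        refine sum_congr rfl fun j _ => ?_
        push_cast
        rw [expo_vt hd, expo_vt hd]
        unfold rw'
        ring
      rw [h4, h3, mul_zero])
    rw [← h2]
    unfold wgt
    rw [← sum_sub_distrib]
    exact sum_congr rfl fun j _ => by push_cast; ring
  · -- a lower bound
    push Not at hcase
    have hf0 : ∀ v ∈ T, 0 < f z₀ v := fun v hv => lt_of_le_of_ne (by
      rw [hf]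
      exact sum_nonneg fun l _ => abs_nonneg _) (hcase v hv).symm
    have hfc : Continuous (f z₀) := by
      rw [hf]
      exact continuous_finsetSum _ fun l _ => (continuous_finsetSum _ fun j _ =>
        continuous_const.mul (continuous_apply j)).abs
    obtain ⟨c, hc0, hc⟩ : ∃ c : ℝ, 0 < c ∧ ∀ v ∈ T, c ≤ f z₀ v := by
      rcases T.eq_empty_or_nonempty with he | hne
      · exact ⟨1, one_pos, fun v hv => by
          rw [he] at hv
          exact absurd hv (Set.notMem_empty v)⟩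
      · obtain ⟨v₀, hv₀, hmin⟩ := hTc.exists_isMinOn hne hfc.continuousOn
        exact ⟨f z₀ v₀, hf0 v₀ hv₀, fun v hv => hmin hv⟩
    obtain ⟨M, hM⟩ : ∃ M : ℝ, M = (r * (n + 1) * 2 + 1 : ℝ) := ⟨_, rfl⟩
    have hM0 : 0 < M := by
      rw [hM]
      positivity
    refine ⟨c / (2 * M), by positivity, ⌈2 * (N : ℝ) / c⌉₊, fun d hd hd0 a ha hclose hsupp _ u hu
      hmin hj0min => ?_⟩
    have hd' : (0 : ℝ) < d := by exact_mod_cast hd0
    -- the scaled direction
    obtain ⟨j1, hj1, hmax⟩ := exists_max_image J (fun j => u j - u j0) ⟨j0, hj0⟩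
    obtain ⟨μ, hμ⟩ : ∃ μ : ℤ, μ = u j1 - u j0 := ⟨_, rfl⟩
    have hμ1 : 1 ≤ μ := by
      obtain ⟨i, hi, j, hj, hij⟩ := hu
      by_contra hcon
      push Not at hcon
      apply hij
      have h1 := hmax i hi
      have h2 := hmax j hj
      have h3 := hj0min i hi
      have h4 := hj0min j hj
      rw [← hμ] at h1 h2
      omega
    have hμ' : (1 : ℝ) ≤ μ := by exact_mod_cast hμ1
    obtain ⟨v, hv⟩ : ∃ v : Fin (n + 1) → ℝ, v = fun j => if j ∈ J then ((u j - u j0 : ℤ) : ℝ) / μ else 0 :=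
      ⟨_, rfl⟩
    have hvJ : ∀ j ∈ J, v j = ((u j - u j0 : ℤ) : ℝ) / μ := fun j hj => by rw [hv]; simp only; rw [if_pos hj]
    have hvJ' : ∀ j, j ∉ J → v j = 0 := fun j hj => by rw [hv]; simp only; rw [if_neg hj]
    have hv01 : ∀ j, v j ∈ Set.Icc (0 : ℝ) 1 := by
      intro j
      by_cases hj : j ∈ J
      · rw [hvJ j hj]
        have h1 : (0 : ℝ) ≤ ((u j - u j0 : ℤ) : ℝ) := by
          exact_mod_cast sub_nonneg.2 (hj0min j hj)
        have h2 : ((u j - u j0 : ℤ) : ℝ) ≤ μ := by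
          rw [hμ]
          exact_mod_cast hmax j hj
        exact ⟨by positivity, by rw [div_le_one (by linarith)]; exact h2⟩
      · rw [hvJ' j hj]
        exact ⟨le_rfl, zero_le_one⟩
    have hvT : v ∈ T := by
      rw [hT]
      refine ⟨hv01, hvJ', fun j hj => ?_, ?_, ?_⟩
      · by_cases hjJ : j ∈ J
        · rw [hvJ j hjJ]
          have h1 := hmin j hj j0 hj0
          have h2 := hj0min j hjJ
          have h3 : u j - u j0 = 0 := by omega
          rw [h3]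
          simp
        · exact hvJ' j hjJ
      · rw [hvJ j0 hj0, sub_self]
        simp
      · have h1 : v j1 = 1 := by
          rw [hvJ j1 hj1, ← hμ, div_self (by linarith)]
        calc (1 : ℝ) = v j1 := h1.symm
          _ ≤ ∑ j, v j := single_le_sum (fun j _ => (hv01 j).1) (mem_univ j1)
    -- the width
    have hwid : ∀ l, ((|wgt u (expo d a (p l)) - wgt u (expo d a (q l))| : ℤ) : ℝ) =
        d * μ * |∑ j, rw' (sclI d a) (p l) (q l) j * v j| := by
      intro l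
      have h1 : ((wgt u (expo d a (p l)) - wgt u (expo d a (q l)) : ℤ) : ℝ) =
          d * μ * ∑ j, rw' (sclI d a) (p l) (q l) j * v j := by
        rw [wgt_real hd0, mul_assoc]
        congr 1
        have h2 : ∑ j, rw' (sclI d a) (p l) (q l) j * (u j : ℝ) =
            ∑ j, rw' (sclI d a) (p l) (q l) j * ((u j : ℝ) - u j0) := by
          have h3 := rw_sum (adm_scl hd0 ha) (p l) (q l)
          simp only [mul_sub, sum_sub_distrib, ← sum_mul]
          rw [h3]
          ring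
        rw [h2, mul_sum]
        refine sum_congr rfl fun j _ => ?_
        by_cases hj : j ∈ J
        · rw [hvJ j hj]
          push_cast
          field_simp
        · have h4 := hsupp l j hj
          have h5 : rw' (sclI d a) (p l) (q l) j = 0 := by
            have h6 := expo_vt hd0 a (p l) j
            have h7 := expo_vt hd0 a (q l) j
            rw [h4.1, Nat.cast_zero] at h6
            rw [h4.2, Nat.cast_zero] at h7
            unfold rw'
            rw [(mul_eq_zero.1 h6.symm).resolve_left hd'.ne', (mul_eq_zero.1 h7.symm).resolve_left hd'.ne',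
              sub_self]
          rw [h5]
          ring
      rw [Int.cast_abs, h1, abs_mul, abs_of_nonneg (by positivity)]
    have htot : ((∑ l, |wgt u (expo d a (p l)) - wgt u (expo d a (q l))| : ℤ) : ℝ) =
        d * μ * f (sclI d a) v := by
      rw [hf]
      push_cast
      rw [mul_sum]
      refine sum_congr rfl fun l _ => ?_
      have := hwid l
      push_cast at this
      exact this
    -- comparison of the two shapes
    have hcomp : f z₀ v - f (sclI d a) v ≤ c / 2 := by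
      have h1 : ∀ l, |∑ j, rw' z₀ (p l) (q l) j * v j| - |∑ j, rw' (sclI d a) (p l) (q l) j * v j| ≤
          (n + 1) * (2 * (c / (2 * M))) := by
        intro l
        refine (abs_sub_abs_le_abs_sub _ _).trans ?_
        rw [← sum_sub_distrib]
        refine (abs_sum_le_sum_abs _ _).trans ?_
        have h2 : ∀ j, |rw' z₀ (p l) (q l) j * v j - rw' (sclI d a) (p l) (q l) j * v j| ≤
            2 * (c / (2 * M)) := by
          intro j
          rw [← sub_mul, abs_mul, abs_of_nonneg (hv01 j).1]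
          have h3 : ∀ p : Fin s ⊕ Fin (n + 1), |vt z₀ p j - vt (sclI d a) p j| ≤ c / (2 * M) := by
            rintro (i | l')
            · rw [abs_sub_comm]
              exact hclose i j
            · show |(if l' = j then (1 : ℝ) else 0) - (if l' = j then 1 else 0)| ≤ _
              rw [sub_self, abs_zero]
              positivity
          have h4 : |rw' z₀ (p l) (q l) j - rw' (sclI d a) (p l) (q l) j| ≤ 2 * (c / (2 * M)) := by
            unfold rw'
            have h5 : vt z₀ (p l) j - vt z₀ (q l) j - (vt (sclI d a) (p l) j - vt (sclI d a) (q l) j) =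
                (vt z₀ (p l) j - vt (sclI d a) (p l) j) - (vt z₀ (q l) j - vt (sclI d a) (q l) j) := by
              ring
            rw [h5]
            refine (abs_sub _ _).trans ?_
            linarith [h3 (p l), h3 (q l)]
          calc |rw' z₀ (p l) (q l) j - rw' (sclI d a) (p l) (q l) j| * v j
              ≤ 2 * (c / (2 * M)) * 1 :=
                mul_le_mul h4 (hv01 j).2 (hv01 j).1 (by positivity)
            _ = _ := mul_one _
        refine (sum_le_sum fun j _ => h2 j).trans (le_of_eq ?_)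
        rw [sum_const, card_univ, Fintype.card_fin, nsmul_eq_mul]
        push_cast
        ring
      rw [hf]
      simp only
      rw [← sum_sub_distrib]
      refine (sum_le_sum fun l _ => h1 l).trans ?_
      rw [sum_const, card_univ, Fintype.card_fin, nsmul_eq_mul]
      have h2 : (r : ℝ) * ((n + 1) * (2 * (c / (2 * M)))) = (r * (n + 1) * 2) / M * (c / 2) := by
        field_simp
      rw [h2]
      have h3 : (r * (n + 1) * 2 : ℝ) / M ≤ 1 := by
        rw [div_le_one hM0, hM]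
        linarith
      calc (r * (n + 1) * 2 : ℝ) / M * (c / 2) ≤ 1 * (c / 2) :=
            mul_le_mul_of_nonneg_right h3 (by positivity)
        _ = c / 2 := one_mul _
    have hfz : c / 2 ≤ f (sclI d a) v := by
      have := hc v hvT
      linarith
    have hdN : (N : ℝ) ≤ d * (c / 2) := by
      have h1 : 2 * (N : ℝ) / c ≤ d := (Nat.le_ceil _).trans (by exact_mod_cast hd)
      rw [div_le_iff₀ hc0] at h1
      linarith
    have hfin : (N : ℝ) ≤ ((∑ l, |wgt u (expo d a (p l)) - wgt u (expo d a (q l))| : ℤ) : ℝ) := by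
      rw [htot]
      calc (N : ℝ) ≤ d * (c / 2) := hdN
        _ ≤ d * μ * f (sclI d a) v := by
            rw [mul_assoc]
            refine mul_le_mul_of_nonneg_left ?_ hd'.le
            nlinarith
    exact_mod_cast hfin

/-- bounds for finitely many conditions -/
theorem unif {Ξ : Type} [Finite Ξ] (ε : Ξ → ℝ) (hε : ∀ ξ, 0 < ε ξ) (d : Ξ → ℕ) :
    ∃ e : ℝ, 0 < e ∧ ∃ D : ℕ, ∀ ξ, e ≤ ε ξ ∧ d ξ ≤ D := by
  rcases isEmpty_or_nonempty Ξ with h | h
  · exact ⟨1, one_pos, 0, fun ξ => (h.false ξ).elim⟩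
  · obtain ⟨ξ₁, h1⟩ := Finite.exists_min ε
    obtain ⟨ξ₂, h2⟩ := Finite.exists_max d
    exact ⟨ε ξ₁, hε _, d ξ₂, fun ξ => ⟨h1 ξ, h2 ξ⟩⟩

/-- **Near a generic shape.** -/
theorem near_wide {I : Fin s → Finset (Fin (n + 1))} {z₀ : Fin s → Fin (n + 1) → ℝ}
    (hg : GenericShape I z₀) (N : ℕ) : ∃ ε : ℝ, 0 < ε ∧ ∃ d₀ : ℕ, ∀ d : ℕ, d₀ ≤ d → 0 < d →
      ∀ a ∈ TuplesIn I d, (∀ i j, |sclI d a i j - z₀ i j| ≤ ε) →
        ∀ U : Set (Fin (n + 1)), WideTK U (withPowers d a) N := by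
  classical
  let Ξ : Type := Σ r : Fin (n + 1), (Fin r → Fin s ⊕ Fin (n + 1)) × (Fin r → Fin s ⊕ Fin (n + 1)) ×
    Finset (Fin (n + 1)) × Finset (Fin (n + 1)) × Fin (n + 1)
  have key : ∀ ξ : Ξ, ∃ ε : ℝ, 0 < ε ∧ ∃ d₀ : ℕ, ξ.2.2.2.2.2 ∈ ξ.2.2.2.2.1 → ∀ d : ℕ, d₀ ≤ d → 0 < d →
      ∀ a ∈ TuplesIn I d, (∀ i j, |sclI d a i j - z₀ i j| ≤ ε) →
      (∀ l j, j ∉ ξ.2.2.2.2.1 → expo d a (ξ.2.1 l) j = 0 ∧ expo d a (ξ.2.2.1 l) j = 0) →
      (∀ u : Fin (n + 1) → ℤ, (∃ i ∈ ξ.2.2.2.2.1, ∃ j ∈ ξ.2.2.2.2.1, u i ≠ u j) →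
        (∀ i ∈ ξ.2.2.2.1, ∀ j ∈ ξ.2.2.2.2.1, u i ≤ u j) →
        0 < ∑ l, |wgt u (expo d a (ξ.2.1 l)) - wgt u (expo d a (ξ.2.2.1 l))|) →
      ∀ u : Fin (n + 1) → ℤ, (∃ i ∈ ξ.2.2.2.2.1, ∃ j ∈ ξ.2.2.2.2.1, u i ≠ u j) →
        (∀ i ∈ ξ.2.2.2.1, ∀ j ∈ ξ.2.2.2.2.1, u i ≤ u j) →
        (∀ j ∈ ξ.2.2.2.2.1, u ξ.2.2.2.2.2 ≤ u j) →
        (N : ℤ) ≤ ∑ l, |wgt u (expo d a (ξ.2.1 l)) - wgt u (expo d a (ξ.2.2.1 l))| := by
    rintro ⟨r, p, q, U, J, j0⟩
    by_cases hj0 : j0 ∈ J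
    · obtain ⟨ε, hε, d₀, h⟩ := local_wide hg N U J p q hj0
      exact ⟨ε, hε, d₀, fun _ => h⟩
    · exact ⟨1, one_pos, 0, fun h => absurd h hj0⟩
  choose ε hε d₀ h using key
  obtain ⟨e, he, D, hD⟩ := unif ε hε d₀
  refine ⟨e, he, D, fun d hd hd0 a ha hclose U J r α β hU hr hm hpos u hu hmin => ?_⟩
  choose p hp using fun l => mem_withPowers.1 (hm l).1
  choose q hq using fun l => mem_withPowers.1 (hm l).2.1
  obtain ⟨Uf, hUf⟩ : ∃ Uf : Finset (Fin (n + 1)), ∀ j, j ∈ Uf ↔ j ∈ U :=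
    ⟨univ.filter fun j => j ∈ U, fun j => by simp⟩
  obtain ⟨Jf, hJf⟩ : ∃ Jf : Finset (Fin (n + 1)), ∀ j, j ∈ Jf ↔ j ∈ J :=
    ⟨univ.filter fun j => j ∈ J, fun j => by simp⟩
  obtain ⟨i1, hi1, -⟩ := id hu
  obtain ⟨j0, hj0, hj0min⟩ := exists_min_image Jf u ⟨i1, (hJf i1).2 hi1⟩
  have h1 := h ⟨⟨r, by omega⟩, p, q, Uf, Jf, j0⟩ hj0 d ((hD _).2.trans hd) hd0 a ha
    (fun i j => (hclose i j).trans (hD _).1) (by
      intro l j hj
      have h2 := (hm l).2.2 j fun h3 => hj ((hJf j).2 h3)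
      simp only
      rw [hp l, hq l]
      exact h2) (by
      rintro u' ⟨i, hi, j, hj, hij⟩ hmin'
      have h2 := hpos u' ⟨i, (hJf i).1 hi, j, (hJf j).1 hj, hij⟩
        fun i hi j hj => hmin' i ((hUf i).2 hi) j ((hJf j).2 hj)
      simp only [hp, hq]
      exact h2) u (by
      obtain ⟨i, hi, j, hj, hij⟩ := hu
      exact ⟨i, (hJf i).2 hi, j, (hJf j).2 hj, hij⟩)
    (fun i hi j hj => hmin i ((hUf i).1 hi) j ((hJf j).1 hj)) hj0min
  simp only [hp, hq] at h1
  exact h1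

/-- **Compact sets of generic shapes.** -/
theorem wideK_compact {I : Fin s → Finset (Fin (n + 1))} (K : Set (Fin s → Fin (n + 1) → ℝ))
    (hK : IsCompact K) (hg : ∀ z ∈ K, GenericShape I z) (N : ℕ) :
    ∃ δ : ℝ, 0 < δ ∧ ∃ d₀ : ℕ, ∀ d : ℕ, d₀ ≤ d → ∀ a ∈ TuplesIn I d,
      (∃ z ∈ K, ∀ i j, |(a i j : ℝ) - d * z i j| ≤ δ * d) →
        ∀ U : Set (Fin (n + 1)), WideTK U (withPowers d a) N := by
  classical
  let Pr : Set (Fin s → Fin (n + 1) → ℝ) → Prop := fun S => ∃ δ : ℝ, 0 < δ ∧ ∃ d₀ : ℕ, 0 < d₀ ∧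
    ∀ d : ℕ, d₀ ≤ d → ∀ a ∈ TuplesIn I d, (∃ z ∈ S, ∀ i j, |(a i j : ℝ) - d * z i j| ≤ δ * d) →
        ∀ U : Set (Fin (n + 1)), WideTK U (withPowers d a) N
  have hPr : Pr K := by
    refine hK.induction_on (p := Pr) ?_ ?_ ?_ ?_
    · exact ⟨1, one_pos, 1, one_pos, fun d _ a _ ⟨z, hz, _⟩ => absurd hz (Set.notMem_empty z)⟩
    · rintro S S' hSS ⟨δ, hδ, d₀, hd₀, h⟩
      exact ⟨δ, hδ, d₀, hd₀, fun d hd a ha ⟨z, hz, hz'⟩ => h d hd a ha ⟨z, hSS hz, hz'⟩⟩
    · rintro S S' ⟨δ, hδ, d₀, hd₀, h⟩ ⟨δ', hδ', d₀', hd₀', h'⟩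
      refine ⟨min δ δ', lt_min hδ hδ', max d₀ d₀', lt_max_of_lt_left hd₀, fun d hd a ha ⟨z, hz, hz'⟩ => ?_⟩
      have hdn : (0 : ℝ) ≤ d := Nat.cast_nonneg d
      rcases hz with hz | hz
      · exact h d ((le_max_left _ _).trans hd) a ha ⟨z, hz, fun i j => (hz' i j).trans
          (mul_le_mul_of_nonneg_right (min_le_left _ _) hdn)⟩
      · exact h' d ((le_max_right _ _).trans hd) a ha ⟨z, hz, fun i j => (hz' i j).trans
          (mul_le_mul_of_nonneg_right (min_le_right _ _) hdn)⟩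
    · intro z₀ hz₀
      obtain ⟨ε, hε, d₀, h⟩ := near_wide (hg z₀ hz₀) N
      refine ⟨Metric.closedBall z₀ (ε / 2), mem_nhdsWithin_of_mem_nhds
        (Metric.closedBall_mem_nhds z₀ (by positivity)), ε / 2, by positivity, max 1 d₀, by omega,
        fun d hd a ha ⟨z, hz, hz'⟩ => ?_⟩
      have hd1 : 0 < d := lt_of_lt_of_le one_pos ((le_max_left _ _).trans hd)
      have hd' : (0 : ℝ) < d := by exact_mod_cast hd1
      refine h d ((le_max_right _ _).trans hd) hd1 a ha fun i j => ?_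
      have h1 : |sclI d a i j - z i j| ≤ ε / 2 := by
        have h2 : sclI d a i j - z i j = ((a i j : ℝ) - d * z i j) / d := by
          unfold sclI
          field_simp
        rw [h2, abs_div, abs_of_pos hd', div_le_iff₀ hd']
        exact hz' i j
      have h3 : |z i j - z₀ i j| ≤ ε / 2 := by
        have h4 : dist z z₀ ≤ ε / 2 := Metric.mem_closedBall.1 hz
        have h5 := (dist_pi_le_iff (by positivity)).1 h4 i
        have h6 := (dist_pi_le_iff (by positivity)).1 h5 j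
        rwa [Real.dist_eq] at h6
      calc |sclI d a i j - z₀ i j| = |(sclI d a i j - z i j) + (z i j - z₀ i j)| := by ring_nf
        _ ≤ |sclI d a i j - z i j| + |z i j - z₀ i j| := abs_add_le _ _
        _ ≤ ε := by linarith
  obtain ⟨δ, hδ, d₀, -, h⟩ := hPr
  exact ⟨δ, hδ, d₀, h⟩

end Pool.Agent.J4.H93.WK
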